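import Mathlib
import Pool.Agent.Lib.MP_ae5b4e_an_RIG.GDef

/-!
# MP_ae5b4e_an, project ALM: the coefficients of a normal form are bounded
-/

noncomputable section

namespace Pool.Agent.MP_ae5b4e_an_ALM

open Real Set Filter Topology
open scoped ContDiff
open Pool.Agent.MP_ae5b4e_an_hopf
open Pool.Agent.MP_ae5b4e_an_RIG

private lemma bd_per {f : ℝ → ℝ} (hf : Continuous f) (hp : Function.Periodic f 1) :
    ∃ C : ℝ, ∀ x, |f x| ≤ C := by
  obtain ⟨C, hC⟩ := isCompact_Icc.exists_bound_of_continuousOn (s := Icc (0:ℝ) 1) hf.continuousOn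
  refine ⟨C, fun x => ?_⟩
  obtain ⟨y, hy, hy'⟩ := hp.exists_mem_Ico₀ one_pos x
  rw [hy']
  exact hC y ⟨hy.1, hy.2.le⟩

private lemma per_der {f : ℝ → ℝ} (hp : Function.Periodic f 1) :
    Function.Periodic (deriv f) 1 := by
  intro x
  have h1 : (fun y => f (y + 1)) = f := funext fun y => hp y
  have h2 := deriv_comp_add_const (f := f) (1 : ℝ) x
  rw [h1] at h2
  exact h2.symm

/-- the coefficients of a normal form are bounded, with their derivatives -/
theorem exists_bnd {γ : ConvexCurve} {κ σ lam r m : ℝ → ℝ} (hN : Normal γ κ σ lam r m) :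
    ∃ K, Bnd K r m := by
  have r0 := hN.smooth_r
  have r1 : ContDiff ℝ ∞ (deriv r) := (contDiff_infty_iff_deriv.1 r0).2
  have r2 : ContDiff ℝ ∞ (deriv (deriv r)) := (contDiff_infty_iff_deriv.1 r1).2
  have r3 : ContDiff ℝ ∞ (deriv (deriv (deriv r))) := (contDiff_infty_iff_deriv.1 r2).2
  have m0 := hN.smooth_m
  have m1 : ContDiff ℝ ∞ (deriv m) := (contDiff_infty_iff_deriv.1 m0).2
  have m2 : ContDiff ℝ ∞ (deriv (deriv m)) := (contDiff_infty_iff_deriv.1 m1).2
  obtain ⟨C0, h0⟩ := bd_per r0.continuous hN.per_r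
  obtain ⟨C1, h1⟩ := bd_per r1.continuous (per_der hN.per_r)
  obtain ⟨C2, h2⟩ := bd_per r2.continuous (per_der (per_der hN.per_r))
  obtain ⟨C3, h3⟩ := bd_per r3.continuous (per_der (per_der (per_der hN.per_r)))
  obtain ⟨C4, h4⟩ := bd_per m0.continuous hN.per_m
  obtain ⟨C5, h5⟩ := bd_per m1.continuous (per_der hN.per_m)
  obtain ⟨C6, h6⟩ := bd_per m2.continuous (per_der (per_der hN.per_m))
  have p : ∀ {f : ℝ → ℝ} {C : ℝ}, (∀ x, |f x| ≤ C) → 0 ≤ C := fun h => (abs_nonneg _).trans (h 0)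
  have p0 := p h0
  have p1 := p h1
  have p2 := p h2
  have p3 := p h3
  have p4 := p h4
  have p5 := p h5
  have p6 := p h6
  exact ⟨C0 + C1 + C2 + C3 + C4 + C5 + C6, fun x => by linarith [h0 x], fun x => by linarith [h1 x],
    fun x => by linarith [h2 x], fun x => by linarith [h3 x], fun x => by linarith [h4 x],
    fun x => by linarith [h5 x], fun x => by linarith [h6 x]⟩

end Pool.Agent.MP_ae5b4e_an_ALM
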