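import Mathlib
import Pool.Agent.Lib.MP_ae5b4e_an_RG.LSys
import Pool.Agent.Lib.MP_ae5b4e_an_RIG.GDef

/-!
# MP_ae5b4e_an, project ALM (almost total integrability): definitions

THEOREM.  For every `K` there is `η > 0` such that every solution with smooth leaves (`∂U/∂c < 0`),
normal coefficients bounded by `K`, and one leaf on which two steps of the dual billiard map go
around the curve up to `η` (`Reach2 γ U σ (1 - η)`) is a pencil of conics.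

Interface (`SSys` = normalized smooth system without any condition for `c → 1`):

(AT1) `theorem SSys.strip_le {T : ℝ} {Γ : ℝ → Fin 3 → ℝ} {U : ℝ → ℝ → ℝ} (h : SSys T Γ U)
    (hW : ∀ y, Wr Γ y = 1) {c₀ : ℝ} (hc : c₀ ∈ Ioo (0:ℝ) 1) {ε : ℝ} (h0 : 0 < ε) (h1 : ε ≤ T / 2) :
    ∫ r in ε..(T - ε), (∫ t in (0:ℝ)..T, Qdens Γ t (t + r)) ≤
      50 * ∫ t in (0:ℝ)..T, (∫ x in (nxt Γ T U c₀ t)..(mxt Γ T U c₀ t), Idens Γ t x)`

(AT2a) `theorem NLim.curve {P : ℝ → Fin 3 → ℝ} {r m : ℝ → ℝ} (h : NLim P r m) : Curve 1 P`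

(AT2b) `theorem qdens_lim {δ : ℝ} (hδ : 0 < δ) {P : ℕ → ℝ → Fin 3 → ℝ} {U : ℕ → ℝ → ℝ → ℝ}
    {P0 : ℝ → Fin 3 → ℝ} (hQ : Curve 1 P0) (hW0 : ∀ y, Wr P0 y = 1) (h : ∀ k, SSys 1 (P k) (U k))
    (hW : ∀ k y, Wr (P k) y = 1)
    (uP : ∀ (i : Fin 3) (j : ℕ), TendstoUniformly (fun k => deriv^[j] (fun x => P k x i))
      (deriv^[j] (fun x => P0 x i)) atTop)
    {c η : ℕ → ℝ} (hc : ∀ k, c k ∈ Ioo (0:ℝ) 1) (hη : Tendsto η atTop (𝓝 0))
    (h1 : ∀ k t, t + δ ≤ nxt (P k) 1 (U k) (c k) t)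
    (h2 : ∀ k t, mxt (P k) 1 (U k) (c k) t ≤ t + 1 - δ)
    (h3 : ∀ k t, mxt (P k) 1 (U k) (c k) t - nxt (P k) 1 (U k) (c k) t ≤ η k) :
    ∀ t s, t < s → s < t + 1 → Qdens P0 t s = 0`
-/

noncomputable section

namespace Pool.Agent.MP_ae5b4e_an_ALM

open Real Set Filter Topology
open scoped ContDiff
open Pool.Agent.MP_ae5b4e_an_hopf
open Pool.Agent.MP_ae5b4e_an_RG

/-- a normalized family (`κ = 0`) of smooth invariant curves, positive and decreasing in the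
parameter; there is no condition for `c → 1` -/
structure SSys (T : ℝ) (Γ : ℝ → Fin 3 → ℝ) (U : ℝ → ℝ → ℝ) : Prop where
  sys : LSys T Γ U (fun _ => 0)
  smooth : ContDiffOn ℝ ∞ (fun q : ℝ × ℝ => U q.1 q.2) (Ioo 0 1 ×ˢ univ)
  mono : ∀ c ∈ Ioo (0:ℝ) 1, ∀ t, deriv (fun r => U r t) c < 0
  pos : ∀ c ∈ Ioo (0:ℝ) 1, ∀ t, 0 < U c t

/-- On some leaf two steps of the dual billiard map have at least the length `δ` (in the normal
parameter): if the point of the leaf on the tangent line at `x` is also on the tangent line at `y`,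
`x < y < x + 1`, and the point of the leaf on the tangent line at `y` is also on the tangent line
at `z`, `y < z < y + 1`, then `x + δ ≤ z`. -/
def Reach2 (γ : ConvexCurve) (U : ℝ → ℝ → ℝ) (σ : ℝ → ℝ) (δ : ℝ) : Prop :=
  ∃ c ∈ Ioo (0:ℝ) 1, ∀ x y z, x < y → y < x + 1 → y < z → z < y + 1 →
    det3 (γ.hvec (σ x) (U c (σ x))) (γ.Γ (σ y)) (deriv γ.Γ (σ y)) = 0 →
    det3 (γ.hvec (σ y) (U c (σ y))) (γ.Γ (σ z)) (deriv γ.Γ (σ z)) = 0 → x + δ ≤ z

end Pool.Agent.MP_ae5b4e_an_ALM
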