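import Mathlib
import Pool.Agent.Lib.MP_ae5b4e_an_ALM.Defs
import Pool.Agent.Lib.MP_ae5b4e_an_RIG.GGau

/-!
# MP_ae5b4e_an, project ALM: from a solution of the problem to the normalized structure and back
-/

noncomputable section

namespace Pool.Agent.MP_ae5b4e_an_ALM

open Real Set Filter Topology MeasureTheory intervalIntegral
open scoped ContDiff
open Pool.Agent.MP_ae5b4e_an_hopf
open Pool.Agent.MP_ae5b4e_an_RG
open Pool.Agent.MP_ae5b4e_an_RIG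

variable {γ : ConvexCurve} {U : ℝ → ℝ → ℝ} {κ σ lam r m : ℝ → ℝ}

/-- The point of the leaf is different from its image under the involution. -/
theorem half_lt (h : Sol γ U κ) {c : ℝ} (hc : c ∈ Ioo (0:ℝ) 1) (t : ℝ) : κ t / 2 < U c t := by
  by_contra hn
  push Not at hn
  -- a leaf with equality
  obtain ⟨a, ha, ha'⟩ : ∃ a ∈ Ioo (0:ℝ) 1, U a t = κ t / 2 := by
    have e1 : ∀ᶠ a in 𝓝[>] (0:ℝ), κ t / 2 < U a t := (h.lim t).eventually_gt_atTop _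
    obtain ⟨a, ha1, ha2⟩ := (e1.and (Ioo_mem_nhdsGT (one_pos (α := ℝ)))).exists
    have hcont : ContinuousOn (fun c => U c t) (Ioo 0 1) :=
      h.cont.comp (f := fun c : ℝ => ((c, t) : ℝ × ℝ)) (by fun_prop) fun c hc => ⟨hc, mem_univ _⟩
    obtain ⟨b, hb, hb'⟩ := isPreconnected_Ioo.intermediate_value hc ha2 hcont
      (show κ t / 2 ∈ Icc _ _ from ⟨hn, ha1.le⟩)
    exact ⟨b, hb, hb'⟩
  obtain ⟨s, hs⟩ := h.lsys.surj_nxt ha t
  obtain ⟨s1, s2, s3⟩ := h.lsys.nxt_spec a s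
  have h1 := h.lsys.feq' ha s
  rw [hs] at s1 s2 s3 h1
  have h2 : L1 γ.Γ t s = -(U a t) := by rw [ha'] at h1 ⊢; linarith
  have n1 := (γ.isCurve.dd_pos_right s1 s2).ne'
  have n2 := (γ.isCurve.dd_pos_left s1 s2).ne'
  have h3 := γ.pt_inter n2 n1 h2
  rw [s3, neg_neg] at h3
  obtain ⟨n, hn⟩ := h.simple a ha s t h3
  have hT := γ.T_pos
  have h6 : 0 < (n:ℝ) * γ.T := by linarith
  have h7 : (n:ℝ) * γ.T < 1 * γ.T := by linarith
  have h8 : (0:ℝ) < n := by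
    by_contra hneg
    push Not at hneg
    have := mul_nonpos_of_nonpos_of_nonneg hneg hT.le
    linarith
  have h9 : (n:ℝ) < 1 := lt_of_mul_lt_mul_right h7 hT.le
  have h10 : (0:ℤ) < n := by exact_mod_cast h8
  have h11 : n < 1 := by exact_mod_cast h9
  omega

theorem wr_pos (hN : Normal γ κ σ lam r m) (x : ℝ) : 0 < Wr (lift γ σ lam) x := by
  have : Wr (lift γ σ lam) x = 1 := hN.wr x
  rw [this]; exact one_pos

/-- a solution with smooth leaves in its normal form -/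
theorem ssys_of_sol (h : Sol γ U κ)
    (hs : ContDiffOn ℝ ∞ (fun q : ℝ × ℝ => U q.1 q.2) (Ioo 0 1 ×ˢ univ))
    (hd : ∀ c ∈ Ioo (0:ℝ) 1, ∀ t, deriv (fun r => U r t) c < 0)
    (hN : Normal γ κ σ lam r m) : SSys 1 (lift γ σ lam) (rU κ σ U) where
  sys := hN.lsys h
  smooth := by
    have k1 : ContDiffOn ℝ ∞ (fun q : ℝ × ℝ => U q.1 (σ q.2)) (Ioo 0 1 ×ˢ univ) := by
      refine hs.comp (f := fun q : ℝ × ℝ => (q.1, σ q.2))
        (contDiff_fst.prodMk (hN.smooth_σ.comp contDiff_snd)).contDiffOn ?_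
      rintro q ⟨hq, -⟩
      exact ⟨hq, mem_univ _⟩
    have k2 : ContDiff ℝ ∞ (fun q : ℝ × ℝ => κ (σ q.2) / 2) :=
      (h.lsys.smooth_κ.comp (hN.smooth_σ.comp contDiff_snd)).div_const 2
    have k3 : ContDiff ℝ ∞ (fun q : ℝ × ℝ => deriv σ q.2) :=
      (contDiff_infty_iff_deriv.1 hN.smooth_σ).2.comp contDiff_snd
    exact k3.contDiffOn.mul (k1.sub k2.contDiffOn)
  mono c hc t := by
    have h1 := hd c hc (σ t)
    have hdiff : DifferentiableAt ℝ (fun r => U r (σ t)) c := by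
      by_contra hn
      rw [deriv_zero_of_not_differentiableAt hn] at h1
      exact lt_irrefl _ h1
    have h2 : HasDerivAt (fun r => rU κ σ U r t) (deriv σ t * deriv (fun r => U r (σ t)) c) c :=
      (hdiff.hasDerivAt.sub_const (κ (σ t) / 2)).const_mul (deriv σ t)
    rw [h2.deriv]
    exact mul_neg_of_pos_of_neg (hN.pos_σ t) h1
  pos c hc t := by
    have h1 := half_lt h hc (σ t)
    exact mul_pos (hN.pos_σ t) (by linarith)

/-- the second tangency point in the two descriptions -/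
theorem nxt_of_det (h : Sol γ U κ) (hN : Normal γ κ σ lam r m) {c : ℝ} (hc : c ∈ Ioo (0:ℝ) 1)
    {x y : ℝ} (h1 : x < y) (h2 : y < x + 1)
    (h3 : det3 (γ.hvec (σ x) (U c (σ x))) (γ.Γ (σ y)) (deriv γ.Γ (σ y)) = 0) :
    nxt (lift γ σ lam) 1 (rU κ σ U) c x = y := by
  obtain ⟨g1, g2⟩ := gauge h.lsys hN.smooth_σ hN.pos_σ hN.per_σ hN.smooth_lam hN.pos_lam
    hN.eq_lam (wr_pos hN)
  have hσm : StrictMono σ := strictMono_of_deriv_pos hN.pos_σ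
  have k1 : σ x < σ y := hσm h1
  have k2 : σ y < σ x + γ.T := by
    rw [← hN.per_σ]
    exact hσm h2
  have hn := (γ.isCurve.dd_pos_right k1 k2).ne'
  have k3 : L1 γ.Γ (σ x) (σ y) = -(U c (σ x)) := by
    have k5 : det3 (γ.hvec (σ x) (U c (σ x))) (γ.Γ (σ y)) (deriv γ.Γ (σ y)) =
        U c (σ x) * dd γ.Γ (σ x) (σ y) + ddx γ.Γ (σ x) (σ y) := by
      rw [γ.hvec_eq]
      unfold dd ddx det3
      simp only [Pi.smul_apply, Pi.add_apply, smul_eq_mul]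
      ring
    rw [k5] at h3
    unfold L1
    rw [div_eq_iff hn]
    linarith
  have k4 : nxt γ.Γ γ.T U c (σ x) = σ y := γ.isCurve.nx_unique k1 k2 k3
  have k5 : σ (nxt (lift γ σ lam) 1 (rU κ σ U) c x) = nxt γ.Γ γ.T U c (σ x) := g2 c hc x
  rw [k4] at k5
  exact hσm.injective k5

/-- the determinant vanishes at the next tangency point -/
theorem det_nxt (h : Sol γ U κ) (hN : Normal γ κ σ lam r m) {c : ℝ} (hc : c ∈ Ioo (0:ℝ) 1)
    (t : ℝ) : det3 (γ.hvec (σ t) (U c (σ t))) (γ.Γ (σ (nxt (lift γ σ lam) 1 (rU κ σ U) c t)))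
      (deriv γ.Γ (σ (nxt (lift γ σ lam) 1 (rU κ σ U) c t))) = 0 := by
  obtain ⟨g1, g2⟩ := gauge h.lsys hN.smooth_σ hN.pos_σ hN.per_σ hN.smooth_lam hN.pos_lam
    hN.eq_lam (wr_pos hN)
  have e1 : σ (nxt (lift γ σ lam) 1 (rU κ σ U) c t) = nxt γ.Γ γ.T U c (σ t) := g2 c hc t
  obtain ⟨k1, k2, k3⟩ := h.lsys.nxt_spec c (σ t)
  rw [← e1] at k1 k2 k3
  obtain ⟨z, hz⟩ : ∃ z, z = nxt (lift γ σ lam) 1 (rU κ σ U) c t := ⟨_, rfl⟩
  rw [← hz] at k1 k2 k3 ⊢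
  have hn := (γ.isCurve.dd_pos_right k1 k2).ne'
  have k4 : ddx γ.Γ (σ t) (σ z) = -(U c (σ t)) * dd γ.Γ (σ t) (σ z) := by
    unfold L1 at k3
    rwa [div_eq_iff hn] at k3
  rw [γ.hvec_eq]
  have k5 : det3 (U c (σ t) • γ.Γ (σ t) + deriv γ.Γ (σ t)) (γ.Γ (σ z)) (deriv γ.Γ (σ z)) =
      U c (σ t) * dd γ.Γ (σ t) (σ z) + ddx γ.Γ (σ t) (σ z) := by
    unfold dd ddx det3
    simp only [Pi.smul_apply, Pi.add_apply, smul_eq_mul]
    ring
  rw [k5, k4]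
  ring

theorem reach_of_step (h : Sol γ U κ) (hN : Normal γ κ σ lam r m) {δ : ℝ}
    (hst : ∃ c ∈ Ioo (0:ℝ) 1, ∀ t, t + δ ≤ nxt (lift γ σ lam) 1 (rU κ σ U) c t) :
    Reach γ U σ δ := by
  obtain ⟨c, hc, hs⟩ := hst
  refine ⟨c, hc, fun x y h1 h2 h3 => ?_⟩
  rw [← nxt_of_det h hN hc h1 h2 h3]
  exact hs x

theorem step2_of_reach2 (h : Sol γ U κ) (hN : Normal γ κ σ lam r m) {δ : ℝ}
    (hR : Reach2 γ U σ δ) : ∃ c ∈ Ioo (0:ℝ) 1, ∀ t, t + δ ≤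
      nxt (lift γ σ lam) 1 (rU κ σ U) c (nxt (lift γ σ lam) 1 (rU κ σ U) c t) := by
  obtain ⟨c, hc, hR⟩ := hR
  refine ⟨c, hc, fun t => ?_⟩
  have hS := hN.lsys h
  obtain ⟨a1, a2, -⟩ := hS.nxt_spec c t
  obtain ⟨b1, b2, -⟩ := hS.nxt_spec c (nxt (lift γ σ lam) 1 (rU κ σ U) c t)
  exact hR t _ _ a1 a2 b1 b2 (det_nxt h hN hc t) (det_nxt h hN hc _)

end Pool.Agent.MP_ae5b4e_an_ALM
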