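import Mathlib
import Pool.Agent.Lib.MP_ae5b4e_an_ALM.Defs
import Pool.Agent.Lib.MP_ae5b4e_an_hopf.Hopf
import Pool.Agent.Lib.MP_ae5b4e_an_RIG.GTay
import Pool.Agent.Lib.MP_ae5b4e_an_RIG.GGau
import Pool.Agent.Lib.MP_ae5b4e_an_RG.VForm

/-!
# MP_ae5b4e_an, project ALM: the first step on an almost total leaf, uniformly in the curve
-/

noncomputable section

namespace Pool.Agent.MP_ae5b4e_an_ALM

open Real Set Filter Topology MeasureTheory intervalIntegral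
open scoped ContDiff
open Pool.Agent.MP_ae5b4e_an_hopf
open Pool.Agent.MP_ae5b4e_an_RG
open Pool.Agent.MP_ae5b4e_an_RIG (Bnd Reach Normal lift taylor_unif)

/-- the expansion gives a quadratic bound -/
private theorem stp_rho {K C C1 d R b ρ : ℝ} (hK : 0 ≤ K) (hC1 : 2 * K + C ≤ C1)
    (hC : 0 ≤ C) (hd : |d| ≤ 1) (hR : |R| ≤ K) (hb : |b| ≤ K)
    (h : |ρ + R / 6 * d ^ 2 + b * d ^ 3| ≤ C * d ^ 4) : |ρ| ≤ C1 * d ^ 2 := by
  have h2 : d ^ 2 ≤ 1 := (sq_le_one_iff_abs_le_one d).2 hd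
  have e1 : |R / 6 * d ^ 2| ≤ K * d ^ 2 := by
    rw [abs_mul, abs_div, abs_of_pos (by norm_num : (0:ℝ) < 6), abs_of_nonneg (sq_nonneg d)]
    have : |R| / 6 ≤ K := by linarith [abs_nonneg R]
    exact mul_le_mul_of_nonneg_right this (sq_nonneg d)
  have e2 : |b * d ^ 3| ≤ K * d ^ 2 := by
    have h4 : b * d ^ 3 = (b * d) * d ^ 2 := by ring
    rw [h4, abs_mul, abs_mul, abs_of_nonneg (sq_nonneg d)]
    have h3 : |b| * |d| ≤ K * 1 := mul_le_mul hb hd (abs_nonneg _) hK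
    rw [mul_one] at h3
    exact mul_le_mul_of_nonneg_right h3 (sq_nonneg d)
  have e3 : C * d ^ 4 ≤ C * d ^ 2 := by
    have : d ^ 4 ≤ d ^ 2 := by nlinarith [sq_nonneg d]
    exact mul_le_mul_of_nonneg_left this hC
  have f1 := abs_le.1 h
  have f2 := abs_le.1 e1
  have f3 := abs_le.1 e2
  have e5 : (2 * K + C) * d ^ 2 ≤ C1 * d ^ 2 := mul_le_mul_of_nonneg_right hC1 (sq_nonneg d)
  have e6 : (2 * K + C) * d ^ 2 = 2 * (K * d ^ 2) + C * d ^ 2 := by ring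
  rw [abs_le]
  constructor
  · linarith [f1.1, f1.2, f2.1, f2.2, f3.1, f3.2]
  · linarith [f1.1, f1.2, f2.1, f2.2, f3.1, f3.2]

/-- Near the diagonal the sign of `L1` is known, uniformly in the curve. -/
theorem exists_sign (K : ℝ) (hK : 0 ≤ K) : ∃ d : ℝ, 0 < d ∧ d ≤ 1 / 4 ∧
    ∀ (P : ℝ → Fin 3 → ℝ) (r m : ℝ → ℝ), Curve 1 P → (∀ x, Wr P x = 1) → ContDiff ℝ ∞ r →
      ContDiff ℝ ∞ m → (∀ x, deriv (deriv (deriv P)) x = -(r x) • deriv P x - m x • P x) →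
      Bnd K r m → ∀ t, L1 P t (t + d) < 0 ∧ 0 < L1 P t (t + 1 - d) := by
  obtain ⟨C, d0, hC, hd0, hd01, htay⟩ := taylor_unif K hK
  set C1 : ℝ := 2 * K + C + 1 with hC1d
  have hC1 : 1 ≤ C1 := by rw [hC1d]; linarith
  obtain ⟨d, hd, hda, hdb, hdc⟩ : ∃ d : ℝ, 0 < d ∧ d ≤ d0 ∧ d ≤ 1 / C1 ∧ d ≤ 1 / 4 := by
    refine ⟨min d0 (min (1 / C1) (1 / 4)), ?_, min_le_left _ _,
      (min_le_right _ _).trans (min_le_left _ _), (min_le_right _ _).trans (min_le_right _ _)⟩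
    exact lt_min hd0 (lt_min (by positivity) (by norm_num))
  refine ⟨d, hd, hdc, fun P r m h hW hr hm hode hB t => ?_⟩
  have hρ : ∀ y d : ℝ, d ≠ 0 → |d| ≤ d0 → |d * L1 P y (y - d) - 2| ≤ C1 * d ^ 2 := by
    intro y d hd hd'
    obtain ⟨R1, R2, hR1, hR2⟩ : ∃ R1 R2 : ℝ → ℝ, (∀ x, HasDerivAt R1 (m x) x) ∧
        ∀ x, R2 x = r x - R1 x := ⟨fun x => ∫ t in (0:ℝ)..x, m t,
      fun x => r x - ∫ t in (0:ℝ)..x, m t, (contDiff_prim hm).2, fun x => rfl⟩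
    have h1 := rel_L1 h hW hr.continuous hm.continuous hode hR1 hR2 (a := y - d) hd
      (by linarith)
    rw [sub_add_cancel] at h1
    have h2 := htay r m R1 R2 hr hm hB.r0 hB.m0 hB.m1 hB.r2 hR1 hR2 (y - d) d _ hd' h1
    have h3 : |deriv r (y - d) / 10 + m (y - d) / 20| ≤ K := by
      have e1 := abs_le.1 (hB.r1 (y - d))
      have e2 := abs_le.1 (hB.m0 (y - d))
      rw [abs_le]
      constructor <;> linarith [e1.1, e1.2, e2.1, e2.2]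
    exact stp_rho hK (by rw [hC1d]; linarith) hC.le (hd'.trans hd01.le) (hB.r0 _) h3 h2
  have hs : C1 * d ^ 2 ≤ 1 := by
    have h1 : C1 * d ≤ 1 := by
      calc C1 * d ≤ C1 * (1 / C1) := mul_le_mul_of_nonneg_left hdb (by linarith)
        _ = 1 := by field_simp
    calc C1 * d ^ 2 = (C1 * d) * d := by ring
      _ ≤ 1 * 1 := mul_le_mul h1 (by linarith) hd.le (by norm_num)
      _ = 1 := by norm_num
  constructor
  · have h1 := hρ t (-d) (by linarith : -d < 0).ne (by rw [abs_neg, abs_of_pos hd]; exact hda)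
    rw [sub_neg_eq_add] at h1
    have h2 : (-d) ^ 2 = d ^ 2 := by ring
    rw [h2] at h1
    have h3 := (abs_le.1 h1).1
    by_contra hn
    push Not at hn
    have : 0 ≤ d * L1 P t (t + d) := mul_nonneg hd.le hn
    linarith
  · have h1 := hρ t d hd.ne' (by rw [abs_of_pos hd]; exact hda)
    have h3 := (abs_le.1 h1).1
    have h4 : L1 P t (t + 1 - d) = L1 P t (t - d) := by
      have : t + 1 - d = (t - d) + 1 := by ring
      rw [this, h.L1_per_right]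
    rw [h4]
    by_contra hn
    push Not at hn
    have : d * L1 P t (t - d) ≤ 0 := mul_nonpos_of_nonneg_of_nonpos hd.le hn
    linarith

namespace SSys

variable {T : ℝ} {Γ : ℝ → Fin 3 → ℝ} {U : ℝ → ℝ → ℝ}

lemma mxt_spec (h : SSys T Γ U) (c t : ℝ) : t < mxt Γ T U c t ∧ mxt Γ T U c t < t + T ∧
    L1 Γ t (mxt Γ T U c t) = U c t := by
  have := h.sys.curve.nx_spec t (-(U c t))
  rwa [neg_neg] at this

lemma nxt_lt_mxt (h : SSys T Γ U) {c : ℝ} (hc : c ∈ Ioo (0:ℝ) 1) (t : ℝ) :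
    nxt Γ T U c t < mxt Γ T U c t :=
  h.sys.curve.nx_strictAnti t (by linarith [h.pos c hc t])

lemma mxt_nxt (h : SSys T Γ U) {c : ℝ} (hc : c ∈ Ioo (0:ℝ) 1) (t : ℝ) :
    mxt Γ T U c (nxt Γ T U c t) = t + T := by
  obtain ⟨a1, a2, -⟩ := h.sys.nxt_spec c t
  refine h.sys.curve.nx_unique (by linarith) (by linarith) ?_
  rw [h.sys.curve.L1_per_right, neg_neg]
  have := h.sys.feq' hc t
  rw [zero_add] at this
  exact this.symm

/-- from two steps to the width of the leaf -/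
lemma width (h : SSys T Γ U) {c : ℝ} (hc : c ∈ Ioo (0:ℝ) 1) {η : ℝ}
    (h2 : ∀ t, t + (T - η) ≤ nxt Γ T U c (nxt Γ T U c t)) (t : ℝ) :
    mxt Γ T U c t - nxt Γ T U c t ≤ η := by
  obtain ⟨s, rfl⟩ := h.sys.surj_nxt hc t
  rw [h.mxt_nxt hc]
  linarith [h2 s]

end SSys

/-- the bounds for an almost total leaf -/
theorem leaf_bounds {P : ℝ → Fin 3 → ℝ} {U : ℝ → ℝ → ℝ} (h : SSys 1 P U) {c d η : ℝ}
    (hc : c ∈ Ioo (0:ℝ) 1) (hd : 0 < d) (hd' : d < 1)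
    (hs : ∀ t, L1 P t (t + d) < 0) (hη : ∀ t, mxt P 1 U c t - nxt P 1 U c t ≤ η) (t : ℝ) :
    t + (d - η) ≤ nxt P 1 U c t := by
  obtain ⟨a1, a2, a3⟩ := h.mxt_spec c t
  have h1 : t + d < mxt P 1 U c t := by
    refine ((h.sys.curve.strictMono_L1 t).lt_iff_lt ⟨by linarith, by linarith⟩ ⟨a1, a2⟩).1 ?_
    show L1 P t (t + d) < L1 P t (mxt P 1 U c t)
    rw [a3]
    exact (hs t).trans (h.pos c hc t)
  linarith [hη t]

theorem leaf_bounds' {P : ℝ → Fin 3 → ℝ} {U : ℝ → ℝ → ℝ} (h : SSys 1 P U) {c d η : ℝ}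
    (hc : c ∈ Ioo (0:ℝ) 1) (hd : 0 < d) (hd' : d < 1)
    (hs : ∀ t, 0 < L1 P t (t + 1 - d)) (hη : ∀ t, mxt P 1 U c t - nxt P 1 U c t ≤ η) (t : ℝ) :
    mxt P 1 U c t ≤ t + 1 - (d - η) := by
  obtain ⟨a1, a2, a3⟩ := h.sys.nxt_spec c t
  have h1 : nxt P 1 U c t < t + 1 - d := by
    refine ((h.sys.curve.strictMono_L1 t).lt_iff_lt ⟨a1, a2⟩ ⟨by linarith, by linarith⟩).1 ?_
    show L1 P t (nxt P 1 U c t) < L1 P t (t + 1 - d)
    rw [a3]
    linarith [hs t, h.pos c hc t]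
  linarith [hη t]

end Pool.Agent.MP_ae5b4e_an_ALM
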