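import Mathlib
import Pool.Agent.Lib.MP_ae5b4e_an_ALM.Step
import Pool.Agent.Lib.MP_ae5b4e_an_ALM.OfSol

/-!
# MP_ae5b4e_an, project ALM: total solutions have almost total leaves (Dini)
-/

noncomputable section

namespace Pool.Agent.MP_ae5b4e_an_ALM

open Real Set Filter Topology
open scoped ContDiff
open Pool.Agent.MP_ae5b4e_an_hopf
open Pool.Agent.MP_ae5b4e_an_RG
open Pool.Agent.MP_ae5b4e_an_RIG

variable {γ : ConvexCurve} {U : ℝ → ℝ → ℝ} {κ σ lam r m : ℝ → ℝ}

/-- from the width of a leaf to two steps -/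
theorem reach2_of_width (h : Sol γ U κ) (hN : Normal γ κ σ lam r m)
    (hS : SSys 1 (lift γ σ lam) (rU κ σ U)) {c η : ℝ} (hc : c ∈ Ioo (0:ℝ) 1)
    (hw : ∀ t, mxt (lift γ σ lam) 1 (rU κ σ U) c t - nxt (lift γ σ lam) 1 (rU κ σ U) c t ≤ η) :
    Reach2 γ U σ (1 - η) := by
  refine ⟨c, hc, fun x y z h1 h2 h3 h4 h5 h6 => ?_⟩
  have e1 := nxt_of_det h hN hc h1 h2 h5
  have e2 := nxt_of_det h hN hc h3 h4 h6
  have e3 := hS.mxt_nxt hc x
  rw [e1] at e3
  have e4 := hw y
  rw [e2, e3] at e4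
  linarith

/-- If the leaves fill the whole exterior then the widths of the leaves tend to zero uniformly. -/
theorem SSys.exists_thin {P : ℝ → Fin 3 → ℝ} {V : ℝ → ℝ → ℝ} (h : SSys 1 P V)
    (hlim : ∀ t, Tendsto (fun c => V c t) (𝓝[<] 1) (𝓝 0)) {η : ℝ} (hη : 0 < η) :
    ∃ c ∈ Ioo (0:ℝ) 1, ∀ t, mxt P 1 V c t - nxt P 1 V c t ≤ η := by
  have hC := h.sys.curve
  have hnx : Continuous (fun p : ℝ × ℝ => nx P 1 p.1 p.2) := hC.contDiff_nx.continuous
  set cn : ℕ → ℝ := fun n => 1 - 1 / ((n : ℝ) + 2) with hcn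
  have hcnm : ∀ n, cn n ∈ Ioo (0:ℝ) 1 := fun n => by
    have h1 : (0:ℝ) < (n : ℝ) + 2 := by positivity
    have h2 : (0:ℝ) ≤ n := Nat.cast_nonneg n
    refine ⟨?_, ?_⟩
    · have : 1 / ((n : ℝ) + 2) < 1 := by
        rw [div_lt_one h1]
        linarith
      simp only [hcn]
      linarith
    · have : 0 < 1 / ((n : ℝ) + 2) := by positivity
      simp only [hcn]
      linarith
  have hcnmono : Monotone cn := fun a b hab => by
    have h1 : (a : ℝ) ≤ b := by exact_mod_cast hab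
    have h2 : 1 / ((b : ℝ) + 2) ≤ 1 / ((a : ℝ) + 2) :=
      one_div_le_one_div_of_le (by positivity) (by linarith)
    simp only [hcn]
    linarith
  have hcnlim : Tendsto cn atTop (𝓝[<] 1) := by
    refine tendsto_nhdsWithin_of_tendsto_nhds_of_eventually_within _ ?_
      (Eventually.of_forall fun n => (hcnm n).2)
    have h1 : Tendsto (fun n : ℕ => 1 / ((n : ℝ) + 2)) atTop (𝓝 0) := by
      refine squeeze_zero (fun n => by positivity) (fun n => ?_)
        (tendsto_one_div_add_atTop_nhds_zero_nat (𝕜 := ℝ))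
      exact one_div_le_one_div_of_le (by positivity) (by linarith)
    have h2 := h1.const_sub 1
    rwa [sub_zero] at h2
  set D : ℕ → ℝ → ℝ := fun n t => mxt P 1 V (cn n) t - nxt P 1 V (cn n) t with hD
  have hVc : ∀ n, Continuous (V (cn n)) := fun n =>
    h.sys.cont.comp_continuous (f := fun t : ℝ => (cn n, t)) (by fun_prop)
      fun t => ⟨hcnm n, mem_univ _⟩
  have hDc : ∀ n, ContinuousOn (D n) (Icc 0 1) := fun n => by
    refine Continuous.continuousOn ?_
    exact (hnx.comp (continuous_id.prodMk (hVc n).neg)).sub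
      (hnx.comp (continuous_id.prodMk (hVc n)))
  have hVanti : ∀ t a b, a ≤ b → V (cn b) t ≤ V (cn a) t := fun t a b hab => by
    rcases (hcnmono hab).eq_or_lt with h1 | h1
    · rw [h1]
    · exact (h.sys.anti t (hcnm a) (hcnm b) h1).le
  have hDanti : ∀ t ∈ Icc (0:ℝ) 1, Antitone (D · t) := fun t _ a b hab => by
    have h1 := hVanti t a b hab
    have h2 : mxt P 1 V (cn b) t ≤ mxt P 1 V (cn a) t :=
      (hC.nx_strictAnti t).antitone (by linarith)
    have h3 : nxt P 1 V (cn a) t ≤ nxt P 1 V (cn b) t := (hC.nx_strictAnti t).antitone h1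
    show D b t ≤ D a t
    simp only [hD]
    linarith
  have hDlim : ∀ t ∈ Icc (0:ℝ) 1, Tendsto (D · t) atTop (𝓝 ((fun _ : ℝ => (0:ℝ)) t)) :=
      fun t _ => by
    have h1 : Tendsto (fun n => V (cn n) t) atTop (𝓝 0) := (hlim t).comp hcnlim
    have h2 : Tendsto (fun n => nxt P 1 V (cn n) t) atTop (𝓝 (nx P 1 t 0)) :=
      (hnx.tendsto (t, 0)).comp (tendsto_const_nhds.prodMk_nhds h1)
    have h3 : Tendsto (fun n => mxt P 1 V (cn n) t) atTop (𝓝 (nx P 1 t 0)) := by
      have h4 := h1.neg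
      rw [neg_zero] at h4
      exact (hnx.tendsto (t, 0)).comp (tendsto_const_nhds.prodMk_nhds h4)
    have h5 := h3.sub h2
    rw [sub_self] at h5
    exact h5
  have hU := Antitone.tendstoUniformlyOn_of_forall_tendsto isCompact_Icc hDc hDanti
    continuousOn_const hDlim
  obtain ⟨n, hn⟩ := (Metric.tendstoUniformlyOn_iff.1 hU η hη).exists
  refine ⟨cn n, hcnm n, fun t => ?_⟩
  have hper : Function.Periodic (D n) 1 := fun t => by
    show mxt P 1 V (cn n) (t + 1) - nxt P 1 V (cn n) (t + 1) =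
      mxt P 1 V (cn n) t - nxt P 1 V (cn n) t
    unfold mxt nxt
    rw [h.sys.per _ (hcnm n), hC.nx_per, hC.nx_per]
    ring
  obtain ⟨y, hy, hy'⟩ := hper.exists_mem_Ico₀ one_pos t
  have h1 := hn y ⟨hy.1, hy.2.le⟩
  rw [← hy', dist_comm, Real.dist_eq, sub_zero] at h1
  exact (le_abs_self _).trans h1.le

/-- a total solution has leaves on which two steps go around the curve up to `η` -/
theorem reach2_of_total (h : Sol γ U κ)
    (hs : ContDiffOn ℝ ∞ (fun q : ℝ × ℝ => U q.1 q.2) (Ioo 0 1 ×ˢ univ))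
    (hm : ∀ c ∈ Ioo (0:ℝ) 1, ∀ t, deriv (fun r => U r t) c < 0)
    (hN : Normal γ κ σ lam r m)
    (htot : ∀ t, Tendsto (fun c => U c t) (𝓝[<] 1) (𝓝 (κ t / 2))) {η : ℝ} (hη : 0 < η) :
    Reach2 γ U σ (1 - η) := by
  have hS := ssys_of_sol h hs hm hN
  have hlim : ∀ t, Tendsto (fun c => rU κ σ U c t) (𝓝[<] 1) (𝓝 0) := fun t => by
    have h1 := ((htot (σ t)).sub_const (κ (σ t) / 2)).const_mul (deriv σ t)
    rw [sub_self, mul_zero] at h1
    exact h1
  obtain ⟨c, hc, hw⟩ := hS.exists_thin hlim hη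
  exact reach2_of_width h hN hS hc hw

end Pool.Agent.MP_ae5b4e_an_ALM
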