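import Mathlib
import Pool.Agent.Lib.MP_ae5b4e_an_hopf.Circle

/-!
# MP_ae5b4e_an, project ALM: a closed curve with vanishing density is the circle
-/

noncomputable section

namespace Pool.Agent.MP_ae5b4e_an_ALM

open Real Set Filter Topology
open scoped ContDiff
open Pool.Agent.MP_ae5b4e_an_hopf

private lemma crc_det_zero {e₀ e₁ e₂ : Fin 3 → ℝ} {a b : ℝ} (hD : det3 e₀ e₁ e₂ ≠ 0)
    (h : a • e₁ + b • e₂ = 0) : a = 0 := by
  have h1 : det3 e₀ (a • e₁ + b • e₂) e₂ = a * det3 e₀ e₁ e₂ := by
    unfold det3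
    simp only [Pi.add_apply, Pi.smul_apply, smul_eq_mul]
    ring
  rw [h] at h1
  have h2 : det3 e₀ 0 e₂ = 0 := by
    unfold det3
    simp
  rw [h2] at h1
  exact (mul_eq_zero.1 h1.symm).resolve_right hD

/-- The coefficients of the circle. -/
theorem circle_coef {P : ℝ → Fin 3 → ℝ} (h : Curve 1 P) (hW : ∀ y, Wr P y = 1) {r m : ℝ → ℝ}
    (hode : ∀ x, deriv (deriv (deriv P)) x = -(r x) • deriv P x - m x • P x)
    (hQ : ∀ t s, t < s → s < t + 1 → Qdens P t s = 0) :
    (∀ x, r x = 4 * π ^ 2) ∧ (∀ x, m x = 0) ∧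
      ∀ t s, ddx P t (t + s) = -(sin (2 * π * s) / (2 * π)) := by
  obtain ⟨w, e₀, e₁, e₂, hw, hD, hG⟩ := h.circle hW hQ
  have hP : P = fun t => e₀ + cos (w * t) • e₁ + sin (w * t) • e₂ := funext hG
  have hwt : ∀ t : ℝ, HasDerivAt (fun t : ℝ => w * t) w t := fun t => by
    simpa using (hasDerivAt_id t).const_mul w
  have d0 : deriv P = fun t => (-(w * sin (w * t))) • e₁ + (w * cos (w * t)) • e₂ := by
    funext t
    rw [hP]
    refine (((((hwt t).cos.smul_const e₁).const_add e₀).add ((hwt t).sin.smul_const e₂))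
      |>.congr_deriv ?_).deriv
    funext i
    simp only [Pi.add_apply, Pi.smul_apply, smul_eq_mul]
    ring
  have d1 : deriv (deriv P) = fun t =>
      (-(w ^ 2 * cos (w * t))) • e₁ + (-(w ^ 2 * sin (w * t))) • e₂ := by
    funext t
    rw [d0]
    refine ((((((hwt t).sin.const_mul w).neg).smul_const e₁).add
      (((hwt t).cos.const_mul w).smul_const e₂)) |>.congr_deriv ?_).deriv
    funext i
    simp only [Pi.add_apply, Pi.smul_apply, smul_eq_mul]
    ring
  have d2 : deriv (deriv (deriv P)) = fun t => (-(w ^ 2)) • deriv P t := by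
    funext t
    rw [d1, d0]
    refine ((((((hwt t).cos.const_mul (w ^ 2)).neg).smul_const e₁).add
      ((((hwt t).sin.const_mul (w ^ 2)).neg).smul_const e₂)) |>.congr_deriv ?_).deriv
    funext i
    simp only [Pi.add_apply, Pi.smul_apply, smul_eq_mul]
    ring
  -- the determinant
  have hw3 : w ^ 3 * det3 e₀ e₁ e₂ = 1 := by
    rw [← hW 0]
    unfold Wr
    rw [d1, d0, hP]
    unfold det3
    simp only [Pi.add_apply, Pi.smul_apply, smul_eq_mul, mul_zero, cos_zero, sin_zero]
    ring
  have hdd : ∀ t s, dd P t s = w * (1 - cos (w * (s - t))) * det3 e₀ e₁ e₂ := by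
    intro t s
    unfold dd
    rw [d0, hP]
    have h1 := sin_sq_add_cos_sq (w * s)
    have h2 : cos (w * (s - t)) = cos (w * s) * cos (w * t) + sin (w * s) * sin (w * t) := by
      rw [← cos_sub]
      congr 1
      ring
    rw [h2]
    unfold det3
    simp only [Pi.add_apply, Pi.smul_apply, smul_eq_mul]
    linear_combination w * (e₀ 0 * (e₁ 1 * e₂ 2 - e₁ 2 * e₂ 1) -
      e₀ 1 * (e₁ 0 * e₂ 2 - e₁ 2 * e₂ 0) + e₀ 2 * (e₁ 0 * e₂ 1 - e₁ 1 * e₂ 0)) * h1
  have hddx : ∀ t s, ddx P t s = -(w ^ 2 * sin (w * (s - t))) * det3 e₀ e₁ e₂ := by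
    intro t s
    unfold ddx
    rw [d0, hP]
    have h2 : sin (w * (s - t)) = sin (w * s) * cos (w * t) - cos (w * s) * sin (w * t) := by
      rw [← sin_sub]
      congr 1
      ring
    rw [h2]
    have h1 := sin_sq_add_cos_sq (w * s)
    unfold det3
    simp only [Pi.add_apply, Pi.smul_apply, smul_eq_mul]
    ring
  -- the period
  have hcos : cos w = 1 := by
    have h1 := h.per 0
    rw [hG, hG] at h1
    simp only [zero_add, mul_one, mul_zero, cos_zero, sin_zero, one_smul, zero_smul,
      add_zero] at h1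
    have h2 : (cos w - 1) • e₁ + sin w • e₂ = 0 := by
      rw [sub_smul, one_smul]
      have h3 : cos w • e₁ + sin w • e₂ = e₁ := by
        have h4 : e₀ + (cos w • e₁ + sin w • e₂) = e₀ + e₁ := by rw [← add_assoc, h1]
        exact add_left_cancel h4
      rw [sub_add_eq_add_sub, h3, sub_self]
    linarith [crc_det_zero hD h2]
  obtain ⟨n, hn⟩ := (cos_eq_one_iff w).1 hcos
  have hpi := pi_pos
  have hn0 : (0:ℝ) < n := by
    by_contra hneg
    push Not at hneg
    have : (n:ℝ) * (2 * π) ≤ 0 := mul_nonpos_of_nonpos_of_nonneg hneg (by positivity)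
    linarith
  have hn1 : n = 1 := by
    by_contra hne
    have h1 : (0:ℤ) < n := by exact_mod_cast hn0
    have h2 : (2:ℤ) ≤ n := by omega
    have h3 : (2:ℝ) ≤ n := by exact_mod_cast h2
    have h4 := h.pos 0 (1 / n) (by positivity) (by
      rw [zero_add, div_lt_one hn0]
      linarith)
    rw [hdd, ← hn] at h4
    have h5 : (n:ℝ) * (2 * π) * (1 / n - 0) = 2 * π := by field_simp; ring
    rw [h5, cos_two_pi] at h4
    norm_num at h4
  have hw2 : w = 2 * π := by
    rw [← hn, hn1]
    push_cast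
    ring
  -- the coefficients
  have key : ∀ x, (r x - w ^ 2) • deriv P x + m x • P x = 0 := by
    intro x
    have h1 := hode x
    rw [d2] at h1
    simp only at h1
    have h2 : -(w ^ 2) • deriv P x + (r x) • deriv P x + m x • P x = 0 := by
      rw [h1, neg_smul]
      abel
    rw [sub_smul, ← h2, neg_smul]
    abel
  have hmz : ∀ x, m x = 0 := by
    intro x
    have h1 : det3 ((r x - w ^ 2) • deriv P x + m x • P x) (deriv P x) (deriv (deriv P) x) =
        m x * Wr P x := by
      unfold Wr det3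
      simp only [Pi.add_apply, Pi.smul_apply, smul_eq_mul]
      ring
    rw [key x, hW, mul_one] at h1
    rw [← h1]
    unfold det3
    simp
  refine ⟨fun x => ?_, hmz, fun t s => ?_⟩
  · have h1 : det3 (P x) ((r x - w ^ 2) • deriv P x + m x • P x) (deriv (deriv P) x) =
        (r x - w ^ 2) * Wr P x := by
      unfold Wr det3
      simp only [Pi.add_apply, Pi.smul_apply, smul_eq_mul]
      ring
    rw [key x, hW, mul_one] at h1
    have h2 : det3 (P x) 0 (deriv (deriv P) x) = 0 := by
      unfold det3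
      simp
    rw [h2] at h1
    have h3 : r x = w ^ 2 := by linarith
    rw [h3, hw2]
    ring
  · rw [hddx, add_sub_cancel_left, hw2]
    have h3 : det3 e₀ e₁ e₂ = 1 / (2 * π) ^ 3 := by
      rw [hw2] at hw3
      rw [eq_div_iff (by positivity)]
      linarith
    rw [h3]
    field_simp

end Pool.Agent.MP_ae5b4e_an_ALM
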