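import Mathlib
import Pool.Agent.Lib.MP_ae5b4e_an_hopf.Phi

/-!
# MP_ae5b4e_an, project ALM: uniform bounds on the middle strip for a convergent sequence of curves
-/

noncomputable section

namespace Pool.Agent.MP_ae5b4e_an_ALM

open Real Set Filter Topology
open scoped ContDiff
open Pool.Agent.MP_ae5b4e_an_hopf

lemma det3_abs {a b c : Fin 3 → ℝ} {A B C : ℝ} (ha : ∀ i, |a i| ≤ A) (hb : ∀ i, |b i| ≤ B)
    (hc : ∀ i, |c i| ≤ C) : |det3 a b c| ≤ 6 * A * B * C := by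
  have hA : 0 ≤ A := (abs_nonneg _).trans (ha 0)
  have hB : 0 ≤ B := (abs_nonneg _).trans (hb 0)
  have key : ∀ i j k, |a i * (b j * c k)| ≤ A * (B * C) := by
    intro i j k
    rw [abs_mul, abs_mul]
    exact mul_le_mul (ha i) (mul_le_mul (hb j) (hc k) (abs_nonneg _) hB) (by positivity) hA
  have e : det3 a b c = a 0 * (b 1 * c 2) - a 0 * (b 2 * c 1) - a 1 * (b 0 * c 2) +
      a 1 * (b 2 * c 0) + a 2 * (b 0 * c 1) - a 2 * (b 1 * c 0) := by
    unfold det3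
    ring
  rw [e]
  have k1 := abs_le.1 (key 0 1 2)
  have k2 := abs_le.1 (key 0 2 1)
  have k3 := abs_le.1 (key 1 0 2)
  have k4 := abs_le.1 (key 1 2 0)
  have k5 := abs_le.1 (key 2 0 1)
  have k6 := abs_le.1 (key 2 1 0)
  rw [abs_le]
  constructor <;> nlinarith [k1.1, k1.2, k2.1, k2.2, k3.1, k3.2, k4.1, k4.2, k5.1, k5.2, k6.1, k6.2]

lemma det3_diff {a b c a' b' c' : Fin 3 → ℝ} {B η : ℝ} (hb : ∀ i, |b i| ≤ B)
    (hc : ∀ i, |c i| ≤ B) (ha' : ∀ i, |a' i| ≤ B) (hb' : ∀ i, |b' i| ≤ B)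
    (h1 : ∀ i, |a i - a' i| ≤ η) (h2 : ∀ i, |b i - b' i| ≤ η) (h3 : ∀ i, |c i - c' i| ≤ η) :
    |det3 a b c - det3 a' b' c'| ≤ 18 * B ^ 2 * η := by
  have e : det3 a b c - det3 a' b' c' = det3 (a - a') b c + det3 a' (b - b') c +
      det3 a' b' (c - c') := by
    unfold det3
    simp only [Pi.sub_apply]
    ring
  have k1 := det3_abs (a := a - a') (b := b) (c := c) h1 hb hc
  have k2 := det3_abs (a := a') (b := b - b') (c := c) ha' h2 hc
  have k3 := det3_abs (a := a') (b := b') (c := c - c') ha' hb' h3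
  rw [e]
  refine (abs_add_le _ _).trans ?_
  refine (add_le_add (abs_add_le _ _) le_rfl).trans ?_
  nlinarith

variable {P : ℕ → ℝ → Fin 3 → ℝ} {P0 : ℝ → Fin 3 → ℝ}

lemma comp_deriv {Q : ℝ → Fin 3 → ℝ} (h : ContDiff ℝ ∞ Q) (i : Fin 3) :
    deriv (fun x => Q x i) = fun x => deriv Q x i := funext fun x =>
  (hasDerivAt_pi.1 ((h.differentiable (by norm_num) x).hasDerivAt) i).deriv

/-- uniform closeness of the curves and of two derivatives -/
lemma close (hQ : Curve 1 P0) (h : ∀ k, Curve 1 (P k))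
    (uP : ∀ (i : Fin 3) (j : ℕ), TendstoUniformly (fun k => deriv^[j] (fun x => P k x i))
      (deriv^[j] (fun x => P0 x i)) atTop) {ε : ℝ} (hε : 0 < ε) :
    ∀ᶠ k in atTop, ∀ x i, |P k x i - P0 x i| ≤ ε ∧ |deriv (P k) x i - deriv P0 x i| ≤ ε ∧
      |deriv (deriv (P k)) x i - deriv (deriv P0) x i| ≤ ε := by
  have h0 : ∀ᶠ k in atTop, ∀ i : Fin 3, ∀ x, |P k x i - P0 x i| ≤ ε := by
    refine eventually_all.2 fun i => ?_
    filter_upwards [Metric.tendstoUniformly_iff.1 (uP i 0) ε hε] with k hk x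
    rw [abs_sub_comm]
    exact (hk x).le
  have h1 : ∀ᶠ k in atTop, ∀ i : Fin 3, ∀ x, |deriv (P k) x i - deriv P0 x i| ≤ ε := by
    refine eventually_all.2 fun i => ?_
    filter_upwards [Metric.tendstoUniformly_iff.1 (uP i 1) ε hε] with k hk x
    have h2 : dist (deriv (fun x => P0 x i) x) (deriv (fun x => P k x i) x) < ε := hk x
    rw [comp_deriv hQ.smooth, comp_deriv (h k).smooth] at h2
    rw [abs_sub_comm]
    exact h2.le
  have h2 : ∀ᶠ k in atTop, ∀ i : Fin 3, ∀ x,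
      |deriv (deriv (P k)) x i - deriv (deriv P0) x i| ≤ ε := by
    refine eventually_all.2 fun i => ?_
    filter_upwards [Metric.tendstoUniformly_iff.1 (uP i 2) ε hε] with k hk x
    have h2 : dist (deriv (deriv (fun x => P0 x i)) x) (deriv (deriv (fun x => P k x i)) x) < ε :=
      hk x
    rw [comp_deriv hQ.smooth, comp_deriv (h k).smooth, comp_deriv hQ.smooth1,
      comp_deriv (h k).smooth1] at h2
    rw [abs_sub_comm]
    exact h2.le
  filter_upwards [h0, h1, h2] with k k0 k1 k2 x i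
  exact ⟨k0 i x, k1 i x, k2 i x⟩

/-- a common bound -/
lemma common_bound (hQ : Curve 1 P0) (h : ∀ k, Curve 1 (P k))
    (uP : ∀ (i : Fin 3) (j : ℕ), TendstoUniformly (fun k => deriv^[j] (fun x => P k x i))
      (deriv^[j] (fun x => P0 x i)) atTop) :
    ∃ B : ℝ, 1 ≤ B ∧ (∀ x i, |P0 x i| ≤ B ∧ |deriv P0 x i| ≤ B ∧ |deriv (deriv P0) x i| ≤ B) ∧
      ∀ᶠ k in atTop, ∀ x i, |P k x i| ≤ B ∧ |deriv (P k) x i| ≤ B ∧
        |deriv (deriv (P k)) x i| ≤ B := by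
  have hbd : ∀ g : ℝ → Fin 3 → ℝ, Continuous g → Function.Periodic g 1 →
      ∃ B, 0 ≤ B ∧ ∀ x i, |g x i| ≤ B := by
    intro g hg hp
    obtain ⟨B, hB⟩ := (isCompact_Icc (a := (0:ℝ)) (b := 1)).exists_bound_of_continuousOn
      hg.continuousOn
    refine ⟨max B 0, le_max_right _ _, fun x i => ?_⟩
    obtain ⟨y, hy, hy'⟩ := hp.exists_mem_Ico₀ one_pos x
    rw [hy']
    exact (norm_le_pi_norm (g y) i).trans ((hB y (Ico_subset_Icc_self hy)).trans (le_max_left _ _))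
  obtain ⟨B0, p0, hB0⟩ := hbd P0 hQ.smooth.continuous hQ.per
  obtain ⟨B1, p1, hB1⟩ := hbd (deriv P0) hQ.smooth1.continuous hQ.per1
  obtain ⟨B2, p2, hB2⟩ := hbd (deriv (deriv P0)) hQ.smooth2.continuous hQ.per2
  refine ⟨B0 + B1 + B2 + 1, by linarith, fun x i => ⟨?_, ?_, ?_⟩, ?_⟩
  · linarith [hB0 x i]
  · linarith [hB1 x i]
  · linarith [hB2 x i]
  · filter_upwards [close hQ h uP one_pos] with k hk x i
    obtain ⟨k0, k1, k2⟩ := hk x i
    have g0 := hB0 x i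
    have g1 := hB1 x i
    have g2 := hB2 x i
    rw [abs_le] at k0 k1 k2 g0 g1 g2 ⊢
    rw [abs_le, abs_le]
    refine ⟨⟨?_, ?_⟩, ⟨?_, ?_⟩, ⟨?_, ?_⟩⟩ <;> linarith [k0.1, k0.2, k1.1, k1.2, k2.1, k2.2,
      g0.1, g0.2, g1.1, g1.2, g2.1, g2.2]

/-- positivity on the middle strip -/
lemma strip_pos (hQ : Curve 1 P0) {δ : ℝ} (hδ : 0 < δ) :
    ∃ c > 0, ∀ t x, t + δ ≤ x → x ≤ t + 1 - δ → c ≤ dd P0 t x ∧ c ≤ dd P0 x t := by
  set K : Set (ℝ × ℝ) := Icc (0:ℝ) 1 ×ˢ Icc δ (1 - δ) with hK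
  have hKc : IsCompact K := isCompact_Icc.prod isCompact_Icc
  have c1 : Continuous fun p : ℝ × ℝ => dd P0 p.1 (p.1 + p.2) :=
    hQ.contDiff_dd.continuous.comp (continuous_fst.prodMk (continuous_fst.add continuous_snd))
  have c2 : Continuous fun p : ℝ × ℝ => dd P0 (p.1 + p.2) p.1 :=
    hQ.contDiff_dd.continuous.comp ((continuous_fst.add continuous_snd).prodMk continuous_fst)
  have cm : Continuous fun p : ℝ × ℝ => min (dd P0 p.1 (p.1 + p.2)) (dd P0 (p.1 + p.2) p.1) :=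
    c1.min c2
  have hpos : ∀ p ∈ K, 0 < min (dd P0 p.1 (p.1 + p.2)) (dd P0 (p.1 + p.2) p.1) := by
    intro p hp
    have h2 := hp.2
    refine lt_min (hQ.dd_pos_right ?_ ?_) (hQ.dd_pos_left ?_ ?_) <;> linarith [h2.1, h2.2]
  obtain ⟨c, hc, hc'⟩ : ∃ c > 0, ∀ p ∈ K,
      c ≤ min (dd P0 p.1 (p.1 + p.2)) (dd P0 (p.1 + p.2) p.1) := by
    rcases K.eq_empty_or_nonempty with h0 | h0
    · exact ⟨1, one_pos, fun p hp => by rw [h0] at hp; exact absurd hp (notMem_empty p)⟩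
    · obtain ⟨p, hp, hmin⟩ := hKc.exists_isMinOn h0 cm.continuousOn
      exact ⟨_, hpos p hp, fun q hq => hmin hq⟩
  refine ⟨c, hc, fun t x h1 h2 => ?_⟩
  have hper : Function.Periodic
      (fun y => min (dd P0 y (y + (x - t))) (dd P0 (y + (x - t)) y)) 1 := by
    intro y
    show min (dd P0 (y + 1) (y + 1 + (x - t))) (dd P0 (y + 1 + (x - t)) (y + 1)) = _
    rw [show y + 1 + (x - t) = y + (x - t) + 1 by ring, hQ.dd_per_left, hQ.dd_per_right,
      hQ.dd_per_left, hQ.dd_per_right]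
  obtain ⟨y, hy, hy'⟩ := hper.exists_mem_Ico₀ one_pos t
  have h3 := hc' (y, x - t) ⟨Ico_subset_Icc_self hy, ⟨by linarith, by linarith⟩⟩
  have h4 : c ≤ min (dd P0 t (t + (x - t))) (dd P0 (t + (x - t)) t) := by
    have h5 : min (dd P0 t (t + (x - t))) (dd P0 (t + (x - t)) t) =
        min (dd P0 y (y + (x - t))) (dd P0 (y + (x - t)) y) := hy'
    rw [h5]
    exact h3
  rw [show t + (x - t) = x by ring] at h4
  exact le_min_iff.1 h4

/-- positivity on the middle strip, uniformly for the sequence -/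
lemma strip_pos_ev (hQ : Curve 1 P0) (h : ∀ k, Curve 1 (P k))
    (uP : ∀ (i : Fin 3) (j : ℕ), TendstoUniformly (fun k => deriv^[j] (fun x => P k x i))
      (deriv^[j] (fun x => P0 x i)) atTop) {δ : ℝ} (hδ : 0 < δ) :
    ∃ c > 0, ∀ᶠ k in atTop, ∀ t x, t + δ ≤ x → x ≤ t + 1 - δ →
      c ≤ dd (P k) t x ∧ c ≤ dd (P k) x t := by
  obtain ⟨c, hc, H⟩ := strip_pos hQ hδ
  obtain ⟨B, hB, hB0, hBk⟩ := common_bound hQ h uP
  have hη : 0 < c / (36 * B ^ 2) := by positivity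
  refine ⟨c / 2, by positivity, ?_⟩
  filter_upwards [hBk, close hQ h uP hη] with k k1 k2 t x h1 h2
  have key : ∀ s y, |dd (P k) s y - dd P0 s y| ≤ c / 2 := by
    intro s y
    unfold dd
    refine (det3_diff (fun i => (k1 y i).1) (fun i => (k1 y i).2.1) (fun i => (hB0 s i).1)
      (fun i => (hB0 y i).1) (fun i => (k2 s i).1) (fun i => (k2 y i).1)
      (fun i => (k2 y i).2.1)).trans (le_of_eq ?_)
    field_simp
    ring
  obtain ⟨a1, a2⟩ := H t x h1 h2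
  have b1 := abs_le.1 (key t x)
  have b2 := abs_le.1 (key x t)
  exact ⟨by linarith [b1.1], by linarith [b2.1]⟩

/-- THE BOUND for the density on the middle strip -/
theorem idens_bound (hQ : Curve 1 P0) (h : ∀ k, Curve 1 (P k))
    (uP : ∀ (i : Fin 3) (j : ℕ), TendstoUniformly (fun k => deriv^[j] (fun x => P k x i))
      (deriv^[j] (fun x => P0 x i)) atTop) {δ : ℝ} (hδ : 0 < δ) :
    ∃ C : ℝ, ∀ᶠ k in atTop, ∀ t x, t + δ ≤ x → x ≤ t + 1 - δ → |Idens (P k) t x| ≤ C := by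
  obtain ⟨c, hc, hck⟩ := strip_pos_ev hQ h uP hδ
  obtain ⟨B, hB, hB0, hBk⟩ := common_bound hQ h uP
  set M : ℝ := 6 * B ^ 3 with hM
  have hM0 : 0 ≤ M := by positivity
  set A : ℝ := M / c + (M / c) ^ 2 with hA
  set E : ℝ := M * M / c ^ 2 with hE
  have hA0 : 0 ≤ A := by positivity
  have hE0 : 0 ≤ E := by positivity
  refine ⟨A * E + A * E + 2 * (E * E), ?_⟩
  filter_upwards [hck, hBk] with k k1 k2 t x h1 h2
  obtain ⟨c1, c2⟩ := k1 t x h1 h2
  have hd : ∀ (u v w : Fin 3 → ℝ), (∀ i, |u i| ≤ B) → (∀ i, |v i| ≤ B) → (∀ i, |w i| ≤ B) →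
      |det3 u v w| ≤ M := by
    intro u v w hu hv hw
    refine (det3_abs hu hv hw).trans (le_of_eq ?_)
    rw [hM]
    ring
  have b0 : ∀ y i, |P k y i| ≤ B := fun y i => (k2 y i).1
  have b1 : ∀ y i, |deriv (P k) y i| ≤ B := fun y i => (k2 y i).2.1
  have b2 : ∀ y i, |deriv (deriv (P k)) y i| ≤ B := fun y i => (k2 y i).2.2
  have hL : ∀ s y, c ≤ dd (P k) s y → |L11 (P k) s y| ≤ A := by
    intro s y hs
    have e1 : |ddxx (P k) s y / dd (P k) s y| ≤ M / c := by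
      rw [abs_div]
      exact div_le_div₀ hM0 (hd _ _ _ (b2 s) (b0 y) (b1 y)) hc (hs.trans (le_abs_self _))
    have e2 : |ddx (P k) s y / dd (P k) s y| ≤ M / c := by
      rw [abs_div]
      exact div_le_div₀ hM0 (hd _ _ _ (b1 s) (b0 y) (b1 y)) hc (hs.trans (le_abs_self _))
    unfold L11
    refine (abs_sub _ _).trans ?_
    rw [abs_pow]
    exact add_le_add e1 (pow_le_pow_left₀ (abs_nonneg _) e2 2)
  have hK : ∀ s y, c ≤ dd (P k) s y → |KK (P k) s y| ≤ E := by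
    intro s y hs
    unfold KK
    rw [abs_div, abs_mul, abs_pow]
    refine div_le_div₀ (by positivity) ?_ (by positivity) ?_
    · exact mul_le_mul (hd _ _ _ (b0 y) (b1 y) (b2 y)) (hd _ _ _ (b0 y) (b0 s) (b1 s))
        (abs_nonneg _) hM0
    · exact pow_le_pow_left₀ hc.le (hs.trans (le_abs_self _)) 2
  unfold Idens
  refine (abs_add_le _ _).trans (add_le_add ((abs_add_le _ _).trans (add_le_add ?_ ?_)) ?_)
  · rw [abs_mul]
    exact mul_le_mul (hL t x c1) (hK t x c1) (abs_nonneg _) hA0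
  · rw [abs_mul]
    exact mul_le_mul (hL x t c2) (hK x t c2) (abs_nonneg _) hA0
  · rw [abs_mul, abs_mul, abs_two]
    exact mul_le_mul_of_nonneg_left (mul_le_mul (hK t x c1) (hK x t c2) (abs_nonneg _) hE0)
      (by norm_num)

end Pool.Agent.MP_ae5b4e_an_ALM
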