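import Mathlib
import Pool.Agent.Lib.MP_ae5b4e_an_ALT.TotS

/-!
# MP_ae5b4e_an, project AT, module QlimA

If the integrals of `Qdens (P k)` over the strips tend to zero and the curves converge, then
`Qdens` of the limit vanishes (Fatou).
-/

noncomputable section

namespace Pool.Agent.MP_ae5b4e_an_ALM

open Real Set Filter Topology MeasureTheory intervalIntegral
open scoped ContDiff
open Pool.Agent.MP_ae5b4e_an_hopf

/-- convergence of the determinants -/
lemma tendsto_det3 {a b c : ℕ → Fin 3 → ℝ} {a0 b0 c0 : Fin 3 → ℝ}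
    (ha : Tendsto a atTop (𝓝 a0)) (hb : Tendsto b atTop (𝓝 b0)) (hc : Tendsto c atTop (𝓝 c0)) :
    Tendsto (fun k => det3 (a k) (b k) (c k)) atTop (𝓝 (det3 a0 b0 c0)) := by
  have h : Continuous fun q : (Fin 3 → ℝ) × (Fin 3 → ℝ) × (Fin 3 → ℝ) =>
      det3 q.1 q.2.1 q.2.2 := by
    unfold det3
    fun_prop
  exact (h.tendsto (a0, b0, c0)).comp (ha.prodMk_nhds (hb.prodMk_nhds hc))

lemma cont_QF5 : Continuous fun v : Fin 5 → ℝ => QF (v 0) (v 1) (v 2) (v 3) (v 4) := by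
  unfold QF
  fun_prop

section

variable {P : ℕ → ℝ → Fin 3 → ℝ} {P0 : ℝ → Fin 3 → ℝ}
  (hP : ∀ k, ContDiff ℝ ∞ (P k)) (h0 : ContDiff ℝ ∞ P0)
  (uP : ∀ (i : Fin 3) (j : ℕ), TendstoUniformly (fun k => deriv^[j] (fun x => P k x i))
      (deriv^[j] (fun x => P0 x i)) atTop)
include hP h0 uP

omit hP h0 uP in
lemma deriv_comp_i {Q : ℝ → Fin 3 → ℝ} (h : ContDiff ℝ ∞ Q) (i : Fin 3) :
    (deriv fun x => Q x i) = fun x => deriv Q x i := by
  funext x
  have h1 : HasDerivAt Q (deriv Q x) x := (h.differentiable (by simp) x).hasDerivAt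
  exact ((hasDerivAt_pi.1 h1) i).deriv

omit hP h0 in
lemma lim_0 (x : ℝ) : Tendsto (fun k => P k x) atTop (𝓝 (P0 x)) := by
  rw [tendsto_pi_nhds]
  intro i
  exact (uP i 0).tendsto_at x

lemma lim_1 (x : ℝ) : Tendsto (fun k => deriv (P k) x) atTop (𝓝 (deriv P0 x)) := by
  rw [tendsto_pi_nhds]
  intro i
  have h := (uP i 1).tendsto_at x
  simp only [Function.iterate_one] at h
  rw [deriv_comp_i h0] at h
  refine h.congr fun k => ?_
  rw [deriv_comp_i (hP k)]

lemma lim_2 (x : ℝ) :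
    Tendsto (fun k => deriv (deriv (P k)) x) atTop (𝓝 (deriv (deriv P0) x)) := by
  have hs : ∀ {Q : ℝ → Fin 3 → ℝ}, ContDiff ℝ ∞ Q → ContDiff ℝ ∞ (deriv Q) := fun h =>
    (contDiff_infty_iff_deriv.1 h).2
  rw [tendsto_pi_nhds]
  intro i
  have h := (uP i 2).tendsto_at x
  have e : ∀ {Q : ℝ → Fin 3 → ℝ}, ContDiff ℝ ∞ Q →
      deriv^[2] (fun x => Q x i) = fun x => deriv (deriv Q) x i := by
    intro Q hQ
    show deriv (deriv (fun x => Q x i)) = _
    rw [deriv_comp_i hQ, deriv_comp_i (hs hQ)]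
  rw [e h0] at h
  refine h.congr fun k => ?_
  rw [e (hP k)]

/-- pointwise convergence of the nonnegative density -/
theorem lim_Qdens {t s : ℝ} (h1 : 0 < dd P0 t s) (h2 : 0 < dd P0 s t) :
    Tendsto (fun k => Qdens (P k) t s) atTop (𝓝 (Qdens P0 t s)) := by
  have a0 := lim_0 uP
  have a1 := lim_1 hP h0 uP
  have a2 := lim_2 hP h0 uP
  have d1 : Tendsto (fun k => dd (P k) t s) atTop (𝓝 (dd P0 t s)) :=
    tendsto_det3 (a0 t) (a0 s) (a1 s)
  have d2 : Tendsto (fun k => dd (P k) s t) atTop (𝓝 (dd P0 s t)) :=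
    tendsto_det3 (a0 s) (a0 t) (a1 t)
  have x1 : Tendsto (fun k => L1 (P k) t s) atTop (𝓝 (L1 P0 t s)) :=
    (tendsto_det3 (a1 t) (a0 s) (a1 s)).div d1 h1.ne'
  have x2 : Tendsto (fun k => L1 (P k) s t) atTop (𝓝 (L1 P0 s t)) :=
    (tendsto_det3 (a1 s) (a0 t) (a1 t)).div d2 h2.ne'
  have y1 : Tendsto (fun k => L2 (P k) t s) atTop (𝓝 (L2 P0 t s)) :=
    (tendsto_det3 (a0 t) (a0 s) (a2 s)).div d1 h1.ne'
  have y2 : Tendsto (fun k => L2 (P k) s t) atTop (𝓝 (L2 P0 s t)) :=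
    (tendsto_det3 (a0 s) (a0 t) (a2 t)).div d2 h2.ne'
  have l1 : Tendsto (fun k => log (dd (P k) t s)) atTop (𝓝 (log (dd P0 t s))) :=
    d1.log h1.ne'
  have l2 : Tendsto (fun k => log (dd (P k) s t)) atTop (𝓝 (log (dd P0 s t))) :=
    d2.log h2.ne'
  have hdl : Tendsto (fun k => dl (P k) t s) atTop (𝓝 (dl P0 t s)) := l1.sub l2
  have htf : Tendsto (fun k => tf (dl (P k) t s)) atTop (𝓝 (tf (dl P0 t s))) := by
    have hc : Continuous tf := by
      rw [continuous_iff_continuousAt]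
      exact fun x => (hasDerivAt_tf x).continuousAt
    exact (hc.tendsto _).comp hdl
  have hvv : Tendsto (fun k => vv (P k) t s) atTop (𝓝 (vv P0 t s)) := by
    have : Tendsto (fun k => -((log (dd (P k) t s) + log (dd (P k) s t)) / 2)) atTop
        (𝓝 (-((log (dd P0 t s) + log (dd P0 s t)) / 2))) := ((l1.add l2).div_const 2).neg
    exact (continuous_exp.tendsto _).comp this
  have hQF : Tendsto (fun k => QF (tf (dl (P k) t s)) (L1 (P k) t s) (L2 (P k) s t)
      (L2 (P k) t s) (L1 (P k) s t)) atTop (𝓝 (QF (tf (dl P0 t s)) (L1 P0 t s) (L2 P0 s t)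
      (L2 P0 t s) (L1 P0 s t))) := by
    have hv : Tendsto (fun k => ![tf (dl (P k) t s), L1 (P k) t s, L2 (P k) s t, L2 (P k) t s,
        L1 (P k) s t]) atTop (𝓝 ![tf (dl P0 t s), L1 P0 t s, L2 P0 s t, L2 P0 t s,
        L1 P0 s t]) := by
      rw [tendsto_pi_nhds]
      intro i
      fin_cases i
      exacts [htf, x1, y2, y1, x2]
    have hc := cont_QF5.tendsto ![tf (dl P0 t s), L1 P0 t s, L2 P0 s t, L2 P0 t s, L1 P0 s t]
    exact Tendsto.comp (f := fun k => ![tf (dl (P k) t s), L1 (P k) t s, L2 (P k) s t,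
      L2 (P k) t s, L1 (P k) s t]) (g := fun v : Fin 5 → ℝ => QF (v 0) (v 1) (v 2) (v 3) (v 4))
      hc hv
  have hne : 1 - tf (dl P0 t s) ^ 2 ≠ 0 := (one_sub_tf_sq_pos _).ne'
  have hden : Tendsto (fun k => 1 - tf (dl (P k) t s) ^ 2) atTop
      (𝓝 (1 - tf (dl P0 t s) ^ 2)) := tendsto_const_nhds.sub (htf.pow 2)
  have t1 := ((hvv.mul hQF).div hden hne).const_mul 2
  have t2 := ((((hvv.pow 2).const_mul 96).mul (htf.pow 4)).div (hden.pow 2)
    (pow_ne_zero 2 hne))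
  exact t1.add t2

end

/-- a nonnegative continuous density with vanishing integrals over the strips -/
theorem Q_zero_of_int {T : ℝ} {Γ : ℝ → Fin 3 → ℝ} (h : Curve T Γ)
    (zero : ∀ ε, 0 < ε → ε ≤ T / 2 →
      ∫ r in ε..(T - ε), (∫ t in (0)..T, Qdens Γ t (t + r)) = 0)
    (t s : ℝ) (h1 : t < s) (h2 : s < t + T) : Qdens Γ t s = 0 := by
  have hT := h.T_pos
  have cQ := h.cont_Qdens
  set M : ℝ → ℝ := fun r => ∫ t in (0)..T, Qdens Γ t (t + r) with hM
  have hMnn : ∀ r, 0 ≤ M r := fun r =>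
    intervalIntegral.integral_nonneg hT.le fun t _ => Qdens_nonneg t (t + r)
  have hr : s - t ∈ Ioo 0 T := ⟨by linarith, by linarith⟩
  set r₀ : ℝ := s - t with hr₀
  have hMr : M r₀ = 0 := by
    set ε : ℝ := min r₀ (T - r₀) / 2 with hε
    have e0 : 0 < ε := by
      have : 0 < min r₀ (T - r₀) := lt_min hr.1 (by linarith [hr.2])
      positivity
    have e1 : ε < r₀ := by
      have : min r₀ (T - r₀) ≤ r₀ := min_le_left _ _
      linarith [hr.1]
    have e2 : r₀ < T - ε := by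
      have : min r₀ (T - r₀) ≤ T - r₀ := min_le_right _ _
      linarith [hr.2]
    have e3 : ε ≤ T / 2 := by linarith
    have z := zero ε e0 e3
    by_contra hne
    have hpos : 0 < M r₀ := lt_of_le_of_ne (hMnn _) (Ne.symm hne)
    have hc : ContinuousOn M (Icc ε (T - ε)) :=
      strip_cont (g := fun p => Qdens Γ p.1 p.2) cQ e0 (by linarith)
    have : 0 < ∫ r in ε..(T - ε), M r :=
      intervalIntegral.integral_pos (by linarith) hc (fun r _ => hMnn r)
        ⟨r₀, ⟨e1.le, e2.le⟩, hpos⟩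
    linarith
  have hcs : Continuous fun t => Qdens Γ t (t + r₀) :=
    cont_slice (g := fun p => Qdens Γ p.1 p.2) cQ hr
  have hz : ∀ x ∈ Icc 0 T, Qdens Γ x (x + r₀) = 0 := by
    intro x hx
    by_contra hne
    have hpos : 0 < Qdens Γ x (x + r₀) := lt_of_le_of_ne (Qdens_nonneg _ _) (Ne.symm hne)
    have : 0 < ∫ t in (0)..T, Qdens Γ t (t + r₀) :=
      intervalIntegral.integral_pos hT hcs.continuousOn (fun t _ => Qdens_nonneg _ _)
        ⟨x, hx, hpos⟩
    have e : ∫ t in (0)..T, Qdens Γ t (t + r₀) = 0 := hMr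
    linarith
  have hper : Function.Periodic (fun x => Qdens Γ x (x + r₀)) T := by
    intro x
    have e : x + T + r₀ = (x + r₀) + T := by ring
    simp only [e]
    unfold Qdens
    rw [h.vv_per_left, h.vv_per_right, h.dl_per_left, h.dl_per_right,
      h.L1_per_left, h.L1_per_right, h.L2_per_left, h.L2_per_right,
      h.L1_per_left, h.L1_per_right, h.L2_per_left, h.L2_per_right]
  obtain ⟨z, hz1, hz2⟩ := hper.exists_mem_Ico₀ hT t
  have e : t + r₀ = s := by rw [hr₀]; ring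
  simp only [e] at hz2
  rw [hz2]
  exact hz z ⟨hz1.1, hz1.2.le⟩

/-- **Fatou's lemma for the integrals over the strips.** -/
theorem Q_zero_lim {P : ℕ → ℝ → Fin 3 → ℝ} {P0 : ℝ → Fin 3 → ℝ} (hQ : Curve 1 P0)
    (h : ∀ k, Curve 1 (P k))
    (uP : ∀ (i : Fin 3) (j : ℕ), TendstoUniformly (fun k => deriv^[j] (fun x => P k x i))
      (deriv^[j] (fun x => P0 x i)) atTop)
    {b : ℕ → ℝ} (hb : Tendsto b atTop (𝓝 0))
    (hint : ∀ᶠ k in atTop, ∀ ε, 0 < ε → ε ≤ 1 / 2 →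
      ∫ r in ε..(1 - ε), (∫ t in (0:ℝ)..1, Qdens (P k) t (t + r)) ≤ b k) :
    ∀ t s, t < s → s < t + 1 → Qdens P0 t s = 0 := by
  refine Q_zero_of_int hQ fun ε h0 h2 => ?_
  have h1 : ε ≤ 1 - ε := by linarith
  set S : Set (ℝ × ℝ) := Ioc ε (1 - ε) ×ˢ Ioc (0:ℝ) 1 with hS
  have hSm : MeasurableSet S := measurableSet_Ioc.prod measurableSet_Ioc
  -- the integral over the strip as an integral over the product
  have hI : ∀ Q : ℝ → Fin 3 → ℝ, Curve 1 Q →
      IntegrableOn (fun q : ℝ × ℝ => Qdens Q q.2 (q.2 + q.1)) S ∧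
      ∫ r in ε..(1 - ε), (∫ t in (0:ℝ)..1, Qdens Q t (t + r)) =
        ∫ q in S, Qdens Q q.2 (q.2 + q.1) := by
    intro Q hQ
    have k1 := strip_integrable (g := fun p => Qdens Q p.1 p.2) one_pos hQ.cont_Qdens h0 h1
    rw [uIoc_of_le h1, uIoc_of_le zero_le_one] at k1
    refine ⟨k1, ?_⟩
    rw [Measure.volume_eq_prod] at k1
    have k2 := setIntegral_prod (Function.uncurry fun r t => Qdens Q t (t + r)) k1
    rw [intervalIntegral.integral_of_le h1]
    have k3 : ∀ r, ∫ t in (0:ℝ)..1, Qdens Q t (t + r) = ∫ t in Ioc (0:ℝ) 1, Qdens Q t (t + r) :=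
      fun r => intervalIntegral.integral_of_le zero_le_one
    simp only [k3]
    rw [Measure.volume_eq_prod]
    exact k2.symm
  have hnn : ∀ (Q : ℝ → Fin 3 → ℝ), 0 ≤ᵐ[volume.restrict S]
      fun q : ℝ × ℝ => Qdens Q q.2 (q.2 + q.1) := fun Q =>
    Eventually.of_forall fun q => Qdens_nonneg _ _
  have hL : ∀ Q : ℝ → Fin 3 → ℝ, Curve 1 Q →
      ∫⁻ q in S, ENNReal.ofReal (Qdens Q q.2 (q.2 + q.1)) =
        ENNReal.ofReal (∫ r in ε..(1 - ε), (∫ t in (0:ℝ)..1, Qdens Q t (t + r))) := by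
    intro Q hQ
    rw [(hI Q hQ).2]
    exact (ofReal_integral_eq_lintegral_ofReal (hI Q hQ).1 (hnn Q)).symm
  -- Fatou
  have hF := lintegral_liminf_le' (μ := volume.restrict S) (u := atTop)
    (f := fun (k : ℕ) (q : ℝ × ℝ) => ENNReal.ofReal (Qdens (P k) q.2 (q.2 + q.1)))
    (fun k => (hI (P k) (h k)).1.aemeasurable.ennreal_ofReal)
  have hlim : Tendsto (fun k => ∫⁻ q in S, ENNReal.ofReal (Qdens (P k) q.2 (q.2 + q.1))) atTop
      (𝓝 0) := by
    have hb' : Tendsto (fun k => ENNReal.ofReal (b k)) atTop (𝓝 0) := by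
      have := ENNReal.tendsto_ofReal hb
      rwa [ENNReal.ofReal_zero] at this
    refine tendsto_of_tendsto_of_tendsto_of_le_of_le' tendsto_const_nhds hb'
      (Eventually.of_forall fun k => bot_le) ?_
    filter_upwards [hint] with k hk
    rw [hL (P k) (h k)]
    exact ENNReal.ofReal_le_ofReal (hk ε h0 h2)
  rw [hlim.liminf_eq] at hF
  have hpt : ∀ q ∈ S, liminf (fun k => ENNReal.ofReal (Qdens (P k) q.2 (q.2 + q.1))) atTop =
      ENNReal.ofReal (Qdens P0 q.2 (q.2 + q.1)) := by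
    intro q hq
    have c1 : q.2 < q.2 + q.1 := by linarith [hq.1.1]
    have c2 : q.2 + q.1 < q.2 + 1 := by linarith [hq.1.2]
    exact (ENNReal.tendsto_ofReal (lim_Qdens (fun k => (h k).smooth) hQ.smooth uP
      (hQ.dd_pos_right c1 c2) (hQ.dd_pos_left c1 c2))).liminf_eq
  have hz : ∫⁻ q in S, ENNReal.ofReal (Qdens P0 q.2 (q.2 + q.1)) ≤ 0 := by
    rw [← setLIntegral_congr_fun hSm hpt]
    exact hF
  rw [hL P0 hQ, nonpos_iff_eq_zero, ENNReal.ofReal_eq_zero] at hz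
  refine le_antisymm hz ?_
  exact intervalIntegral.integral_nonneg h1 fun r _ =>
    intervalIntegral.integral_nonneg zero_le_one fun t _ => Qdens_nonneg _ _

end Pool.Agent.MP_ae5b4e_an_ALM
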