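import Mathlib
import Pool.Agent.Lib.MP_ae5b4e_an_ALM.QlimA
import Pool.Agent.Lib.MP_ae5b4e_an_ALM.IdB

/-!
# MP_ae5b4e_an, project AT, module Qlim

`Qdens` of the limit of a sequence of systems vanishes, if the two points of one leaf of the
systems come together.
-/

noncomputable section

namespace Pool.Agent.MP_ae5b4e_an_ALM

open Real Set Filter Topology MeasureTheory intervalIntegral
open scoped ContDiff
open Pool.Agent.MP_ae5b4e_an_hopf

theorem qdens_lim {δ : ℝ} (hδ : 0 < δ) {P : ℕ → ℝ → Fin 3 → ℝ} {U : ℕ → ℝ → ℝ → ℝ}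
    {P0 : ℝ → Fin 3 → ℝ} (hQ : Curve 1 P0)
    (h : ∀ k, Pool.Agent.MP_ae5b4e_an_ALT.SSys 1 (P k) (U k)) (hW : ∀ k y, Wr (P k) y = 1)
    (uP : ∀ (i : Fin 3) (j : ℕ), TendstoUniformly (fun k => deriv^[j] (fun x => P k x i))
      (deriv^[j] (fun x => P0 x i)) atTop)
    {c η : ℕ → ℝ} (hc : ∀ k, c k ∈ Ioo (0:ℝ) 1) (hη : Tendsto η atTop (𝓝 0))
    (h0 : ∀ k t, nxt (P k) 1 (U k) (c k) t ≤ mxt (P k) 1 (U k) (c k) t)
    (h1 : ∀ k t, t + δ ≤ nxt (P k) 1 (U k) (c k) t)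
    (h2 : ∀ k t, mxt (P k) 1 (U k) (c k) t ≤ t + 1 - δ)
    (h3 : ∀ k t, mxt (P k) 1 (U k) (c k) t - nxt (P k) 1 (U k) (c k) t ≤ η k) :
    ∀ t s, t < s → s < t + 1 → Qdens P0 t s = 0 := by
  obtain ⟨C, hC⟩ := idens_bound hQ (fun k => (h k).curve) uP hδ
  have hb : Tendsto (fun k => 50 * (C * η k * 1)) atTop (𝓝 0) := by
    have := ((hη.const_mul C).mul_const 1).const_mul 50
    simpa using this
  refine Q_zero_lim hQ (fun k => (h k).curve) uP hb ?_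
  filter_upwards [hC] with k hk ε e0 e2
  refine (h k).total_quant' (hW k) (hc k) (C := C) (η := η k) (fun t _ x hx => ?_)
    (fun t _ => ?_) e0 e2
  · rw [uIcc_of_le (h0 k t)] at hx
    exact hk t x ((h1 k t).trans hx.1) (hx.2.trans (h2 k t))
  · rw [abs_of_nonneg (by linarith [h0 k t])]
    exact h3 k t

end Pool.Agent.MP_ae5b4e_an_ALM
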