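import Mathlib
import Pool.Agent.Lib.MP_ae5b4e_an_hopf.Circle

/-!
# MP_ae5b4e_an, project ALM: uniform convergence of the determinants
-/

noncomputable section

namespace Pool.Agent.MP_ae5b4e_an_ALM

open Real Set Filter Topology
open scoped ContDiff
open Pool.Agent.MP_ae5b4e_an_hopf

lemma abs_det3_le {u v w : Fin 3 → ℝ} {x y z : ℝ} (hu : ∀ i, |u i| ≤ x) (hv : ∀ i, |v i| ≤ y)
    (hw : ∀ i, |w i| ≤ z) : |det3 u v w| ≤ 6 * (x * y * z) := by
  have hx : 0 ≤ x := (abs_nonneg _).trans (hu 0)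
  have hy : 0 ≤ y := (abs_nonneg _).trans (hv 0)
  have key : ∀ i j k, |u i * (v j * w k)| ≤ x * y * z := fun i j k => by
    rw [abs_mul, abs_mul, mul_assoc]
    exact mul_le_mul (hu i) (mul_le_mul (hv j) (hw k) (abs_nonneg _) hy)
      (mul_nonneg (abs_nonneg _) (abs_nonneg _)) hx
  have e : det3 u v w = u 0 * (v 1 * w 2) - u 0 * (v 2 * w 1) - u 1 * (v 0 * w 2) +
      u 1 * (v 2 * w 0) + u 2 * (v 0 * w 1) - u 2 * (v 1 * w 0) := by
    unfold det3
    ring
  rw [e, abs_le]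
  have h1 := abs_le.1 (key 0 1 2)
  have h2 := abs_le.1 (key 0 2 1)
  have h3 := abs_le.1 (key 1 0 2)
  have h4 := abs_le.1 (key 1 2 0)
  have h5 := abs_le.1 (key 2 0 1)
  have h6 := abs_le.1 (key 2 1 0)
  constructor <;> linarith [h1.1, h1.2, h2.1, h2.2, h3.1, h3.2, h4.1, h4.2, h5.1, h5.2, h6.1, h6.2]

lemma det3_close {a b c a' b' c' : Fin 3 → ℝ} {B e : ℝ} (he : e ≤ 1)
    (ha' : ∀ i, |a' i| ≤ B) (hb' : ∀ i, |b' i| ≤ B) (hc' : ∀ i, |c' i| ≤ B)
    (ha : ∀ i, |a i - a' i| ≤ e) (hb : ∀ i, |b i - b' i| ≤ e) (hc : ∀ i, |c i - c' i| ≤ e) :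
    |det3 a b c - det3 a' b' c'| ≤ 18 * (B + 1) ^ 2 * e := by
  have he0 : 0 ≤ e := (abs_nonneg _).trans (ha 0)
  have hB0 : 0 ≤ B := (abs_nonneg _).trans (ha' 0)
  have hbB : ∀ i, |b i| ≤ B + 1 := fun i => by
    have h1 := abs_le.1 (hb i)
    have h2 := abs_le.1 (hb' i)
    rw [abs_le]
    constructor <;> linarith [h1.1, h1.2, h2.1, h2.2]
  have hcB : ∀ i, |c i| ≤ B + 1 := fun i => by
    have h1 := abs_le.1 (hc i)
    have h2 := abs_le.1 (hc' i)
    rw [abs_le]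
    constructor <;> linarith [h1.1, h1.2, h2.1, h2.2]
  have ha1 : ∀ i, |a' i| ≤ B + 1 := fun i => (ha' i).trans (by linarith)
  have hb1 : ∀ i, |b' i| ≤ B + 1 := fun i => (hb' i).trans (by linarith)
  have e1 : det3 a b c - det3 a' b' c' = det3 (fun i => a i - a' i) b c +
      det3 a' (fun i => b i - b' i) c + det3 a' b' (fun i => c i - c' i) := by
    unfold det3
    ring
  have k1 := abs_det3_le (u := fun i => a i - a' i) ha hbB hcB
  have k2 := abs_det3_le (v := fun i => b i - b' i) ha1 hb hcB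
  have k3 := abs_det3_le (w := fun i => c i - c' i) ha1 hb1 hc
  rw [e1]
  have t1 := abs_add_le (det3 (fun i => a i - a' i) b c + det3 a' (fun i => b i - b' i) c)
    (det3 a' b' (fun i => c i - c' i))
  have t2 := abs_add_le (det3 (fun i => a i - a' i) b c) (det3 a' (fun i => b i - b' i) c)
  have t3 : 6 * (e * (B + 1) * (B + 1)) + 6 * ((B + 1) * e * (B + 1)) +
      6 * ((B + 1) * (B + 1) * e) = 18 * (B + 1) ^ 2 * e := by ring
  linarith

lemma deriv_comp_pi {P : ℝ → Fin 3 → ℝ} (h : ContDiff ℝ ∞ P) (i : Fin 3) :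
    deriv (fun x => P x i) = fun x => deriv P x i := funext fun x =>
  (hasDerivAt_pi.1 ((h.differentiable (by norm_num) x).hasDerivAt) i).deriv

/-- a bound for a periodic continuous curve -/
lemma exists_bd_per {f : ℝ → Fin 3 → ℝ} (hf : Continuous f) (hp : ∀ x, f (x + 1) = f x) :
    ∃ B : ℝ, 0 ≤ B ∧ ∀ x i, |f x i| ≤ B := by
  obtain ⟨C, hC⟩ := isCompact_Icc.exists_bound_of_continuousOn (s := Icc (0:ℝ) 1) hf.continuousOn
  refine ⟨max C 0, le_max_right _ _, fun x i => ?_⟩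
  have hper : Function.Periodic f 1 := hp
  obtain ⟨y, hy, hy'⟩ := hper.exists_mem_Ico₀ one_pos x
  rw [hy']
  exact (norm_le_pi_norm (f y) i).trans ((hC y ⟨hy.1, hy.2.le⟩).trans (le_max_left _ _))

/-- uniform convergence of `ddx` along the translates of the diagonal -/
theorem ddx_unif {P : ℕ → ℝ → Fin 3 → ℝ} {P0 : ℝ → Fin 3 → ℝ} (h0 : Curve 1 P0)
    (sP : ∀ k, ContDiff ℝ ∞ (P k))
    (uP : ∀ (i : Fin 3) (j : ℕ), TendstoUniformly (fun k => deriv^[j] (fun x => P k x i))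
      (deriv^[j] (fun x => P0 x i)) atTop) {a : ℝ} (ha : 0 < a) :
    ∀ᶠ k in atTop, ∀ t s, |ddx (P k) t s - ddx P0 t s| ≤ a := by
  obtain ⟨B0, hB0, b0⟩ := exists_bd_per h0.smooth.continuous h0.per
  obtain ⟨B1, hB1, b1⟩ := exists_bd_per h0.smooth1.continuous h0.per1
  set B : ℝ := max B0 B1 with hB
  have b0' : ∀ x i, |P0 x i| ≤ B := fun x i => (b0 x i).trans (le_max_left _ _)
  have b1' : ∀ x i, |deriv P0 x i| ≤ B := fun x i => (b1 x i).trans (le_max_right _ _)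
  have hBn : 0 ≤ B := hB0.trans (le_max_left _ _)
  obtain ⟨e, he, he1, he2⟩ : ∃ e : ℝ, 0 < e ∧ e ≤ 1 ∧ 18 * (B + 1) ^ 2 * e ≤ a := by
    refine ⟨min 1 (a / (18 * (B + 1) ^ 2)), lt_min one_pos (by positivity), min_le_left _ _, ?_⟩
    have h1 : min 1 (a / (18 * (B + 1) ^ 2)) ≤ a / (18 * (B + 1) ^ 2) := min_le_right _ _
    rw [le_div_iff₀ (by positivity)] at h1
    linarith
  have u0 : ∀ i : Fin 3, ∀ᶠ k in atTop, ∀ x, |P k x i - P0 x i| ≤ e := fun i => by
    have h1 := Metric.tendstoUniformly_iff.1 (uP i 0) e he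
    filter_upwards [h1] with k hk x
    have h2 := (hk x).le
    rw [dist_comm, Real.dist_eq] at h2
    exact h2
  have u1 : ∀ i : Fin 3, ∀ᶠ k in atTop, ∀ x, |deriv (P k) x i - deriv P0 x i| ≤ e := fun i => by
    have h1 := Metric.tendstoUniformly_iff.1 (uP i 1) e he
    filter_upwards [h1] with k hk x
    have h2 := (hk x).le
    rw [dist_comm, Real.dist_eq] at h2
    have h3 : deriv^[1] (fun x => P k x i) x = deriv (P k) x i := congrFun (deriv_comp_pi (sP k) i) x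
    have h4 : deriv^[1] (fun x => P0 x i) x = deriv P0 x i := congrFun (deriv_comp_pi h0.smooth i) x
    rw [h3, h4] at h2
    exact h2
  filter_upwards [eventually_all.2 u0, eventually_all.2 u1] with k k0 k1 t s
  unfold ddx
  exact (det3_close he1 (b1' t) (b0' s) (b1' s) (fun i => k1 i t) (fun i => k0 i s)
    (fun i => k1 i s)).trans he2

end Pool.Agent.MP_ae5b4e_an_ALM
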