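import Mathlib
import Pool.Agent.Lib.MP_ae5b4e_an_ALM.Step
import Pool.Agent.Lib.MP_ae5b4e_an_ALM.OfSol
import Pool.Agent.Lib.MP_ae5b4e_an_ALM.Circ
import Pool.Agent.Lib.MP_ae5b4e_an_ALM.Unif
import Pool.Agent.Lib.MP_ae5b4e_an_ALT.OfSol
import Pool.Agent.Lib.MP_ae5b4e_an_LOC.NeA3
import Pool.Agent.Lib.MP_ae5b4e_an_ALM.Qlim

/-!
# MP_ae5b4e_an, project ALM: almost total solutions are near the circle

A sequence of normalized solutions with bounded coefficients and with leaves whose width tends to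
zero has a subsequence which converges to the circle.
-/

noncomputable section

namespace Pool.Agent.MP_ae5b4e_an_ALM

open Real Set Filter Topology MeasureTheory intervalIntegral Matrix
open scoped ContDiff
open Pool.Agent.MP_ae5b4e_an_hopf
open Pool.Agent.MP_ae5b4e_an_RG
open Pool.Agent.MP_ae5b4e_an_RIG
open Pool.Agent.MP_ae5b4e_an_LOC (NSK NLim ne_limit limit_curve)

/-- the normalized system of a sequence member -/
structure NAT (K d η : ℝ) (P : ℝ → Fin 3 → ℝ) (U : ℝ → ℝ → ℝ) (r m : ℝ → ℝ) (c : ℝ) : Prop where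
  nsk : NSK K (d / 2) P U r m
  ss : SSys 1 P U
  hc : c ∈ Ioo (0:ℝ) 1
  lo : ∀ t, t + d / 2 ≤ nxt P 1 U c t
  hi : ∀ t, mxt P 1 U c t ≤ t + 1 - d / 2
  wd : ∀ t, mxt P 1 U c t - nxt P 1 U c t ≤ η

theorem NAT.mv {K d η : ℝ} {P : ℝ → Fin 3 → ℝ} {U : ℝ → ℝ → ℝ} {r m : ℝ → ℝ} {c : ℝ}
    (h : NAT K d η P U r m c) {M : Matrix (Fin 3) (Fin 3) ℝ} (hM : M.det = 1)
    (hn : NSK K (d / 2) (fun x => M *ᵥ P x) U r m) :
    NAT K d η (fun x => M *ᵥ P x) U r m c := by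
  have e : ∀ t u, nx (fun x => M *ᵥ P x) 1 t u = nx P 1 t u := fun t u =>
    Pool.Agent.MP_ae5b4e_an_NC.nx_mv M h.nsk.sys.curve hM t u
  refine ⟨hn, ⟨hn.sys, h.ss.smooth, h.ss.mono, h.ss.pos⟩, h.hc, fun t => ?_, fun t => ?_,
    fun t => ?_⟩
  · unfold nxt
    rw [e]
    exact h.lo t
  · unfold mxt
    rw [e]
    exact h.hi t
  · unfold nxt mxt
    rw [e, e]
    exact h.wd t

/-- from the solution to the normalized system -/
theorem nat_of_sol {K d η : ℝ} (hd : 0 < d) (hd4 : d ≤ 1 / 4) (hη : η ≤ d / 2)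
    (hsg : ∀ (P : ℝ → Fin 3 → ℝ) (r m : ℝ → ℝ), Curve 1 P → (∀ x, Wr P x = 1) →
      ContDiff ℝ ∞ r → ContDiff ℝ ∞ m →
      (∀ x, deriv (deriv (deriv P)) x = -(r x) • deriv P x - m x • P x) →
      Bnd K r m → ∀ t, L1 P t (t + d) < 0 ∧ 0 < L1 P t (t + 1 - d))
    {γ : ConvexCurve} {U : ℝ → ℝ → ℝ} {κ σ lam r m : ℝ → ℝ} (h : Sol γ U κ)
    (hs : ContDiffOn ℝ ∞ (fun q : ℝ × ℝ => U q.1 q.2) (Ioo 0 1 ×ˢ univ))
    (hm : ∀ c ∈ Ioo (0:ℝ) 1, ∀ t, deriv (fun r => U r t) c < 0)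
    (hN : Normal γ κ σ lam r m) (hB : Bnd K r m) (hR : Reach2 γ U σ (1 - η)) :
    ∃ c, NAT K d η (lift γ σ lam) (rU κ σ U) r m c := by
  have hS := ssys_of_sol h hs hm hN
  obtain ⟨c, hc, h2⟩ := step2_of_reach2 h hN hR
  have hwd : ∀ t, mxt (lift γ σ lam) 1 (rU κ σ U) c t - nxt (lift γ σ lam) 1 (rU κ σ U) c t ≤ η :=
    hS.width hc h2
  have sg := hsg (lift γ σ lam) r m hS.sys.curve hN.wr hN.smooth_r hN.smooth_m hN.ode hB
  have lo : ∀ t, t + d / 2 ≤ nxt (lift γ σ lam) 1 (rU κ σ U) c t := fun t => by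
    have := leaf_bounds hS hc hd (by linarith) (fun t => (sg t).1) hwd t
    linarith
  have hi : ∀ t, mxt (lift γ σ lam) 1 (rU κ σ U) c t ≤ t + 1 - d / 2 := fun t => by
    have := leaf_bounds' hS hc hd (by linarith) (fun t => (sg t).2) hwd t
    linarith
  exact ⟨c,
    { nsk :=
        { sys := hN.lsys h
          wr := hN.wr
          sr := hN.smooth_r
          sm := hN.smooth_m
          pr := hN.per_r
          pm := hN.per_m
          ode := hN.ode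
          bnd := hB
          step := ⟨c, hc, lo⟩ }
      ss := hS
      hc := hc
      lo := lo
      hi := hi
      wd := hwd }⟩

/-- Almost total systems are near the circle. -/
theorem near_circle_seq {K d : ℝ} (hK : 0 ≤ K) (hd : 0 < d) {η : ℕ → ℝ}
    (hη : Tendsto η atTop (𝓝 0)) {P : ℕ → ℝ → Fin 3 → ℝ} {U : ℕ → ℝ → ℝ → ℝ}
    {r m : ℕ → ℝ → ℝ} {c : ℕ → ℝ} (h : ∀ k, NAT K d (η k) (P k) (U k) (r k) (m k) (c k))
    {ε : ℝ} (hε : 0 < ε) :
    ∃ k, (∀ x, |r k x - 4 * π ^ 2| ≤ ε) ∧ (∀ x, |m k x| ≤ ε) ∧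
      ∀ t, t + 11 / 25 ≤ nxt (P k) 1 (U k) (c k) t := by
  choose M hM hn f0 f1 f2 using fun k => (h k).nsk.frame
  obtain ⟨φ, hφ, P0, r0, m0, hL, ur, um, uP⟩ := ne_limit hK (half_pos hd) hn f0 f1 f2
  have hC : Curve 1 P0 := limit_curve hL
  have hN : ∀ k, NAT K d (η k) (fun x => M k *ᵥ P k x) (U k) (r k) (m k) (c k) :=
    fun k => (h k).mv (hM k) (hn k)
  have hQ : ∀ t s, t < s → s < t + 1 → Qdens P0 t s = 0 :=
    qdens_lim (δ := d / 2) (half_pos hd) (P := fun k x => M (φ k) *ᵥ P (φ k) x)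
      (U := fun k => U (φ k)) hC
      (fun k => Pool.Agent.MP_ae5b4e_an_ALT.SSys.of_lsys (hn (φ k)).sys (hN (φ k)).ss.smooth
        (hN (φ k)).ss.mono) (fun k => (hn (φ k)).wr) uP (c := fun k => c (φ k))
      (η := fun k => η (φ k)) (fun k => (hN (φ k)).hc) (hη.comp hφ.tendsto_atTop)
      (fun k t => ((hN (φ k)).ss.nxt_lt_mxt (hN (φ k)).hc t).le) (fun k => (hN (φ k)).lo)
      (fun k => (hN (φ k)).hi) (fun k => (hN (φ k)).wd)
  obtain ⟨er, em, ed⟩ := circle_coef hC hL.wr hL.ode hQ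
  -- closeness
  have c1 : ∀ᶠ k in atTop, ∀ x, |r (φ k) x - 4 * π ^ 2| ≤ ε := by
    filter_upwards [Metric.tendstoUniformly_iff.1 (ur 0) ε hε] with k hk x
    have h2 := (hk x).le
    rw [dist_comm, Real.dist_eq] at h2
    have h3 : deriv^[0] r0 x = 4 * π ^ 2 := er x
    rw [h3] at h2
    exact h2
  have c2 : ∀ᶠ k in atTop, ∀ x, |m (φ k) x| ≤ ε := by
    filter_upwards [Metric.tendstoUniformly_iff.1 (um 0) ε hε] with k hk x
    have h2 := (hk x).le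
    rw [dist_comm, Real.dist_eq] at h2
    have h3 : deriv^[0] m0 x = 0 := em x
    rw [h3, sub_zero] at h2
    exact h2
  have hpi := pi_pos
  have hsin : 0 < sin (2 * π * (9 / 20)) / (2 * π) := by
    refine div_pos (sin_pos_of_pos_of_lt_pi (by positivity) ?_) (by positivity)
    linarith
  have c3 := ddx_unif (P := fun k x => M (φ k) *ᵥ P (φ k) x) hC
    (fun k => (hn (φ k)).sys.curve.smooth) uP (half_pos hsin)
  have c4 : ∀ᶠ k in atTop, η (φ k) ≤ 1 / 100 :=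
    (hη.comp hφ.tendsto_atTop).eventually_le_const (by norm_num)
  obtain ⟨k, k1, k2, k3, k4⟩ := (c1.and (c2.and (c3.and c4))).exists
  refine ⟨φ k, k1, k2, fun t => ?_⟩
  have hS := (hN (φ k)).ss
  have hneg : ∀ t, L1 (fun x => M (φ k) *ᵥ P (φ k) x) t (t + 9 / 20) < 0 := by
    intro t
    have e1 := (abs_le.1 (k3 t (t + 9 / 20))).2
    rw [ed t (9 / 20)] at e1
    unfold L1
    refine div_neg_of_neg_of_pos ?_ (hS.sys.curve.dd_pos_right (by linarith) (by linarith))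
    linarith
  have e2 := leaf_bounds hS (hN (φ k)).hc (by norm_num) (by norm_num) hneg (hN (φ k)).wd t
  have e3 : nxt (fun x => M (φ k) *ᵥ P (φ k) x) 1 (U (φ k)) (c (φ k)) t =
      nxt (P (φ k)) 1 (U (φ k)) (c (φ k)) t :=
    Pool.Agent.MP_ae5b4e_an_NC.nx_mv (M (φ k)) (h (φ k)).nsk.sys.curve (hM (φ k)) t _
  rw [e3] at e2
  linarith

/-- The theorem, for any conclusion which holds near the circle. -/
theorem almost_total_of {Pen : ConvexCurve → (ℝ → ℝ → ℝ) → Prop} {K : ℝ}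
    (HC : ∃ ε : ℝ, 0 < ε ∧
      ∀ (γ : ConvexCurve) (U : ℝ → ℝ → ℝ) (κ σ lam r m : ℝ → ℝ), Sol γ U κ →
        Normal γ κ σ lam r m → Bnd K r m → Reach γ U σ (11 / 25) →
        (∀ x, |r x - 4 * π ^ 2| ≤ ε) → (∀ x, |m x| ≤ ε) → Pen γ U) :
    ∃ η > 0, ∀ (γ : ConvexCurve) (U : ℝ → ℝ → ℝ) (κ σ lam r m : ℝ → ℝ), Sol γ U κ →
      ContDiffOn ℝ ∞ (fun q : ℝ × ℝ => U q.1 q.2) (Ioo 0 1 ×ˢ univ) →
      (∀ c ∈ Ioo (0:ℝ) 1, ∀ t, deriv (fun r => U r t) c < 0) →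
      Normal γ κ σ lam r m → Bnd K r m → Reach2 γ U σ (1 - η) → Pen γ U := by
  rcases lt_or_ge K 0 with hK | hK
  · refine ⟨1, one_pos, fun γ U κ σ lam r m _ _ _ _ hB _ => ?_⟩
    exact absurd ((abs_nonneg _).trans (hB.r0 0)) (not_le.2 hK)
  obtain ⟨d, hd, hd4, hsg⟩ := exists_sign K hK
  obtain ⟨ε, hε, HC⟩ := HC
  by_contra hcon
  push Not at hcon
  have hηp : ∀ k : ℕ, 0 < d / 2 / ((k : ℝ) + 1) := fun k => by positivity
  choose γ U κ σ lam r m h hs hm hN hB hR hP using fun k : ℕ => hcon _ (hηp k)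
  have hηle : ∀ k : ℕ, d / 2 / ((k : ℝ) + 1) ≤ d / 2 := fun k => by
    refine div_le_self (by positivity) ?_
    have : (0:ℝ) ≤ k := Nat.cast_nonneg k
    linarith
  choose c hc using fun k : ℕ => nat_of_sol hd hd4 (hηle k) hsg (h k) (hs k) (hm k) (hN k) (hB k)
    (hR k)
  have hη : Tendsto (fun k : ℕ => d / 2 / ((k : ℝ) + 1)) atTop (𝓝 0) :=
    tendsto_const_div_atTop_nhds_zero_nat (d / 2) |>.comp (tendsto_add_atTop_nat 1) |>.congr
      fun k => by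
        simp only [Function.comp]
        push_cast
        rfl
  obtain ⟨k, k1, k2, k3⟩ := near_circle_seq hK hd hη hc hε
  exact hP k (HC (γ k) (U k) (κ k) (σ k) (lam k) (r k) (m k) (h k) (hN k) (hB k)
    (reach_of_step (h k) (hN k) ⟨c k, (hc k).hc, k3⟩) k1 k2)

end Pool.Agent.MP_ae5b4e_an_ALM
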