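import Mathlib
import Pool.Agent.Lib.MP_ae5b4e_an_ALM.Main
import Pool.Agent.Lib.MP_ae5b4e_an_NC.Cir

/-!
# MP_ae5b4e_an, project ALM: the theorem
-/

noncomputable section

namespace Pool.Agent.MP_ae5b4e_an_ALM

open Real Set Filter Topology
open scoped ContDiff
open Pool.Agent.MP_ae5b4e_an_hopf
open Pool.Agent.MP_ae5b4e_an_RG
open Pool.Agent.MP_ae5b4e_an_RIG

/-- **Theorem**: almost total solutions with smooth leaves are pencils. -/
theorem almost_total (K : ℝ) :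
    ∃ η > 0, ∀ (γ : ConvexCurve) (U : ℝ → ℝ → ℝ) (κ σ lam r m : ℝ → ℝ), Sol γ U κ →
      ContDiffOn ℝ ∞ (fun q : ℝ × ℝ => U q.1 q.2) (Ioo 0 1 ×ˢ univ) →
      (∀ c ∈ Ioo (0:ℝ) 1, ∀ t, deriv (fun r => U r t) c < 0) →
      Normal γ κ σ lam r m → Bnd K r m → Reach2 γ U σ (1 - η) → Pencil γ U :=
  almost_total_of (Pool.Agent.MP_ae5b4e_an_NC.near_circle_K (K := K) (δ := 11 / 25)
    (by norm_num))

end Pool.Agent.MP_ae5b4e_an_ALM
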