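import Mathlib
import Pool.Agent.Lib.MP_ae5b4e_an_hopf.Plane
import Pool.Agent.Lib.MP_ae5b4e_an_RIG.GDef

/-!
# MP_ae5b4e_an, project ALM: total solutions are concentric circles
-/

noncomputable section

namespace Pool.Agent.MP_ae5b4e_an_ALM

open Real Set Filter Topology
open scoped ContDiff
open Pool.Agent.MP_ae5b4e_an_hopf
open Pool.Agent.MP_ae5b4e_an_RIG

/-- total solutions are concentric circles -/
theorem total_circ {γ : ConvexCurve} {U : ℝ → ℝ → ℝ} {κ : ℝ → ℝ} (h0 : Sol γ U κ)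
    (hs : ContDiffOn ℝ ∞ (fun q : ℝ × ℝ => U q.1 q.2) (Ioo 0 1 ×ˢ univ))
    (hm : ∀ c ∈ Ioo (0:ℝ) 1, ∀ t, deriv (fun r => U r t) c < 0)
    (htot : ∀ t, Tendsto (fun c => U c t) (𝓝[<] 1) (𝓝 (κ t / 2))) :
    ∃ g : (Fin 3 → ℝ) ≃ₗ[ℝ] (Fin 3 → ℝ), γ.trace = circ g 1 ∧
      ∀ c ∈ Ioo (0:ℝ) 1, ∃ R : ℝ, 1 < R ∧ γ.leaf U c = circ g R := by
  have h : Sys γ.T γ.Γ U κ :=
    { curve := γ.isCurve
      smooth := hs
      per := h0.per
      mono := hm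
      lim0 := h0.lim
      lim1 := htot
      feq := fun c hc t s h1 h2 h3 => γ.feq_of_proj (h0.simple c hc) (h0.proj c hc) h1 h2 h3 }
  obtain ⟨g, hg, hleaf⟩ := h.conics
  refine ⟨g, ?_, fun c hc => ?_⟩
  · refine range_eq_circ γ.avec_ne fun P hP => ?_
    rw [one_pow, one_mul]
    exact hg P hP
  · obtain ⟨R, hR, hc'⟩ := hleaf c hc
    refine ⟨R, hR, range_eq_circ (fun t => γ.hvec_ne t (U c t)) fun P hP => ?_⟩
    simp only [γ.hvec_eq]
    exact hc' P hP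

end Pool.Agent.MP_ae5b4e_an_ALM
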